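import Pool.Agent.H14RC.Core

/-!
# The box function

For a list `T` of integers `0 < j < m` and a real `y` put
`V m T y = Π_{j ∈ T} (j/m) + y Σ_{j ∈ T} m/j` and `L m y = inf_T V m T y`.
-/

set_option autoImplicit false

namespace Pool.Agent.H42.BX

open Finset Pool.Agent.H14RC

/-- The lists with entries in `{1, ..., m-1}`. -/
def Adm (m : ℕ) (T : List ℕ) : Prop := ∀ j ∈ T, 0 < j ∧ j < m

/-- The product of the numbers `j/m`, `j ∈ T`. -/
noncomputable def P (m : ℕ) (T : List ℕ) : ℝ := (T.map fun j : ℕ => (j : ℝ) / m).prod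

/-- The sum of the numbers `m/j`, `j ∈ T`. -/
noncomputable def S (m : ℕ) (T : List ℕ) : ℝ := (T.map fun j : ℕ => (m : ℝ) / j).sum

/-- The line `V m T y = P m T + y * S m T`. -/
noncomputable def V (m : ℕ) (T : List ℕ) (y : ℝ) : ℝ := P m T + y * S m T

/-- The infimum of the lines. -/
noncomputable def L (m : ℕ) (y : ℝ) : ℝ := sInf {v : ℝ | ∃ T : List ℕ, Adm m T ∧ v = V m T y}

/-- The box function `x ↦ L (min x (1-x))`. -/
noncomputable def B (m : ℕ) (x : ℝ) : ℝ := L m (min x (1 - x))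

lemma Adm_nil (m : ℕ) : Adm m [] := by
  intro j hj; simp at hj

lemma Adm_cons {m j : ℕ} {T : List ℕ} : Adm m (j :: T) ↔ (0 < j ∧ j < m) ∧ Adm m T := by
  unfold Adm; simp

lemma Adm_replicate {m j : ℕ} (h0 : 0 < j) (h1 : j < m) (k : ℕ) : Adm m (List.replicate k j) := by
  intro i hi
  rw [List.eq_of_mem_replicate hi]
  exact ⟨h0, h1⟩

@[simp] lemma P_nil (m : ℕ) : P m [] = 1 := by simp [P]

@[simp] lemma S_nil (m : ℕ) : S m [] = 0 := by simp [S]

lemma P_cons (m j : ℕ) (T : List ℕ) : P m (j :: T) = (j : ℝ) / m * P m T := by simp [P]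

lemma S_cons (m j : ℕ) (T : List ℕ) : S m (j :: T) = (m : ℝ) / j + S m T := by simp [S]

lemma V_nil (m : ℕ) (y : ℝ) : V m [] y = 1 := by simp [V]

lemma V_cons {m j : ℕ} (hj : 0 < j) (hm : 0 < m) (T : List ℕ) (y : ℝ) :
    V m (j :: T) y = (j : ℝ) / m * V m T (y / ((j : ℝ) / m)) + y / ((j : ℝ) / m) := by
  have h1 : (0 : ℝ) < j := by exact_mod_cast hj
  have h2 : (0 : ℝ) < m := by exact_mod_cast hm
  unfold V
  rw [P_cons, S_cons]
  field_simp
  ring

lemma P_pos {m : ℕ} {T : List ℕ} (hT : Adm m T) : 0 < P m T := by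
  induction T with
  | nil => simp
  | cons j T ih =>
    obtain ⟨⟨h0, h1⟩, h2⟩ := Adm_cons.1 hT
    rw [P_cons]
    have h3 : (0 : ℝ) < j := by exact_mod_cast h0
    have h4 : (0 : ℝ) < m := by exact_mod_cast (by omega : 0 < m)
    have := ih h2
    positivity

lemma S_ge {m : ℕ} {T : List ℕ} (hT : Adm m T) : (T.length : ℝ) ≤ S m T := by
  induction T with
  | nil => simp
  | cons j T ih =>
    obtain ⟨⟨h0, h1⟩, h2⟩ := Adm_cons.1 hT
    rw [S_cons, List.length_cons]
    have h3 : (0 : ℝ) < j := by exact_mod_cast h0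
    have h4 : (j : ℝ) ≤ m := by exact_mod_cast h1.le
    have h5 : (1 : ℝ) ≤ (m : ℝ) / j := by rw [le_div_iff₀ h3]; linarith
    have := ih h2
    push_cast
    linarith

lemma S_nonneg {m : ℕ} {T : List ℕ} (hT : Adm m T) : 0 ≤ S m T :=
  (Nat.cast_nonneg _).trans (S_ge hT)

lemma V_pos {m : ℕ} {T : List ℕ} (hT : Adm m T) {y : ℝ} (hy : 0 ≤ y) : 0 < V m T y := by
  have := P_pos hT
  have := S_nonneg hT
  unfold V
  positivity

lemma V_mono {m : ℕ} {T : List ℕ} (hT : Adm m T) {x y : ℝ} (hxy : x ≤ y) :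
    V m T x ≤ V m T y := by
  unfold V
  have := mul_le_mul_of_nonneg_right hxy (S_nonneg hT)
  linarith

lemma L_bdd (m : ℕ) {y : ℝ} (hy : 0 ≤ y) :
    BddBelow {v : ℝ | ∃ T : List ℕ, Adm m T ∧ v = V m T y} := by
  refine ⟨0, ?_⟩
  rintro _ ⟨T, hT, rfl⟩
  exact (V_pos hT hy).le

lemma L_nonempty (m : ℕ) (y : ℝ) : {v : ℝ | ∃ T : List ℕ, Adm m T ∧ v = V m T y}.Nonempty :=
  ⟨V m [] y, [], Adm_nil m, rfl⟩

lemma L_le {m : ℕ} {T : List ℕ} (hT : Adm m T) {y : ℝ} (hy : 0 ≤ y) : L m y ≤ V m T y :=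
  csInf_le (L_bdd m hy) ⟨T, hT, rfl⟩

lemma le_L {m : ℕ} {y c : ℝ} (h : ∀ T, Adm m T → c ≤ V m T y) : c ≤ L m y := by
  apply le_csInf (L_nonempty m y)
  rintro _ ⟨T, hT, rfl⟩
  exact h T hT

lemma L_nonneg (m : ℕ) {y : ℝ} (hy : 0 ≤ y) : 0 ≤ L m y := le_L fun _ hT => (V_pos hT hy).le

lemma L_le_one (m : ℕ) {y : ℝ} (hy : 0 ≤ y) : L m y ≤ 1 := by
  have := L_le (Adm_nil m) hy
  rwa [V_nil] at this

lemma L_mono (m : ℕ) {x y : ℝ} (hx : 0 ≤ x) (hxy : x ≤ y) : L m x ≤ L m y :=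
  le_L fun _ hT => (L_le hT hx).trans (V_mono hT hxy)

/-- The infimum is attained at positive `y`. -/
lemma exists_min (m : ℕ) {y : ℝ} (hy : 0 < y) : ∃ T : List ℕ, Adm m T ∧ L m y = V m T y := by
  obtain ⟨N, hN⟩ := exists_nat_gt (1 / y)
  have hNy : 1 < N * y := by rwa [div_lt_iff₀ hy] at hN
  have hfin : ({T : List ℕ | Adm m T ∧ T.length ≤ N}).Finite := by
    apply (((List.finite_length_le (Fin m) N)).image (List.map Fin.val)).subset
    rintro T ⟨hT, hlen⟩
    refine ⟨T.pmap (fun j hj => (⟨j, hj⟩ : Fin m)) (fun j hj => (hT j hj).2), ?_, ?_⟩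
    · simpa using hlen
    · simp [List.map_pmap]
  obtain ⟨T, ⟨hT, hlen⟩, hmin⟩ := Set.exists_min_image _ (fun T => V m T y) hfin
    ⟨[], Adm_nil m, by simp⟩
  refine ⟨T, hT, le_antisymm (L_le hT hy.le) ?_⟩
  apply le_L
  intro T' hT'
  rcases le_or_gt T'.length N with h | h
  · exact hmin T' ⟨hT', h⟩
  · have h1 : V m T y ≤ V m [] y := hmin [] ⟨Adm_nil m, by simp⟩
    have h2 : V m [] y = 1 := V_nil m y
    have h3 := S_ge hT'
    have h4 : (N : ℝ) ≤ T'.length := by exact_mod_cast h.le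
    have h5 := P_pos hT'
    have h6 : (N : ℝ) * y ≤ y * S m T' := by
      rw [mul_comm]
      exact mul_le_mul_of_nonneg_left (h4.trans h3) hy.le
    have h7 : V m T' y = P m T' + y * S m T' := rfl
    rw [h2] at h1
    rw [h7]
    linarith

/-- Adding one side. -/
lemma L_cons {m j : ℕ} (hj0 : 0 < j) (hjm : j < m) {y : ℝ} (hy : 0 ≤ y) :
    L m ((j : ℝ) / m * y) ≤ (j : ℝ) / m * L m y + y := by
  have h1 : (0 : ℝ) < j := by exact_mod_cast hj0
  have h2 : (0 : ℝ) < m := by exact_mod_cast (by omega : 0 < m)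
  have ht : (0 : ℝ) < (j : ℝ) / m := by positivity
  have key : (L m ((j : ℝ) / m * y) - y) / ((j : ℝ) / m) ≤ L m y := by
    apply le_L
    intro T hT
    rw [div_le_iff₀ ht]
    have h3 := L_le (m := m) (T := j :: T) (Adm_cons.2 ⟨⟨hj0, hjm⟩, hT⟩)
      (y := (j : ℝ) / m * y) (by positivity)
    rw [V_cons hj0 (by omega), mul_div_cancel_left₀ _ ht.ne'] at h3
    linarith
  rw [div_le_iff₀ ht] at key
  linarith

lemma L_zero {m : ℕ} (hm : 2 ≤ m) : L m 0 = 0 := by
  apply le_antisymm _ (L_nonneg m le_rfl)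
  have h2 : (2 : ℝ) ≤ m := by exact_mod_cast hm
  have h := L_cons (m := m) (j := 1) (by norm_num) (by omega) (y := 0) le_rfl
  rw [mul_zero, add_zero] at h
  have h3 : ((1 : ℕ) : ℝ) / m ≤ 1 / 2 := by
    push_cast
    apply one_div_le_one_div_of_le (by norm_num) h2
  have h4 := L_nonneg m (y := 0) le_rfl
  nlinarith [mul_le_mul_of_nonneg_right h3 h4]

/-- `L(y) ≥ min(1, 4y)`. -/
lemma V_lower {m : ℕ} (T : List ℕ) : Adm m T → ∀ y : ℝ, 0 ≤ y → min 1 (4 * y) ≤ V m T y := by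
  induction T with
  | nil => intro _ y _; rw [V_nil]; exact min_le_left _ _
  | cons j T ih =>
    intro hT y hy
    obtain ⟨⟨h0, h1⟩, h2⟩ := Adm_cons.1 hT
    have hj : (0 : ℝ) < j := by exact_mod_cast h0
    have hm : (0 : ℝ) < m := by exact_mod_cast (by omega : 0 < m)
    rw [V_cons h0 (by omega)]
    set t : ℝ := (j : ℝ) / m with ht
    have ht0 : 0 < t := by positivity
    have ht1 : t < 1 := by
      rw [ht, div_lt_one hm]; exact_mod_cast h1
    have h3 := ih h2 (y / t) (by positivity)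
    have hyt : y / t * t = y := by field_simp
    rcases le_total 1 (4 * (y / t)) with h | h
    · rw [min_eq_left h] at h3
      have h4 : t ≤ t * V m T (y / t) := by nlinarith
      rcases le_total (1 / 4) y with h5 | h5
      · refine (min_le_left _ _).trans ?_
        have h6 : 1 / 4 / t ≤ y / t := by gcongr
        have h7 : 1 ≤ t + 1 / 4 / t := by
          have : t + 1 / 4 / t - 1 = (t - 1 / 2) ^ 2 / t := by field_simp; ring
          have h8 : 0 ≤ (t - 1 / 2) ^ 2 / t := by positivity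
          linarith
        linarith
      · refine (min_le_right _ _).trans ?_
        have h8 : 4 * y ≤ t + y / t := by
          have e : t + y / t - 4 * y = (t ^ 2 + y - 4 * y * t) / t := by field_simp
          have h9 : 0 ≤ t ^ 2 + y - 4 * y * t := by nlinarith [sq_nonneg (t - 2 * y)]
          have h10 : 0 ≤ (t ^ 2 + y - 4 * y * t) / t := by positivity
          linarith
        linarith
    · rw [min_eq_right h] at h3
      refine (min_le_right _ _).trans ?_
      have h4 : t * (4 * (y / t)) ≤ t * V m T (y / t) := mul_le_mul_of_nonneg_left h3 ht0.le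
      have h5 : t * (4 * (y / t)) = 4 * y := by field_simp
      have h6 : 0 ≤ y / t := by positivity
      linarith

lemma L_lower (m : ℕ) {y : ℝ} (hy : 0 ≤ y) : min 1 (4 * y) ≤ L m y :=
  le_L fun T hT => V_lower T hT y hy

/-- Concavity of `L`. -/
lemma L_conc (m : ℕ) {x y s t : ℝ} (hx : 0 ≤ x) (hy : 0 ≤ y) (hs : 0 ≤ s) (ht : 0 ≤ t)
    (hst : s + t = 1) : s * L m x + t * L m y ≤ L m (s * x + t * y) := by
  apply le_L
  intro T hT
  have h1 := mul_le_mul_of_nonneg_left (L_le hT hx) hs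
  have h2 := mul_le_mul_of_nonneg_left (L_le hT hy) ht
  have e : V m T (s * x + t * y) = s * V m T x + t * V m T y := by
    unfold V
    have : s = 1 - t := by linarith
    subst this
    ring
  rw [e]
  linarith

end Pool.Agent.H42.BX
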