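import Pool.Agent.H42.BX.Quasi

/-!
# The statements of the main theorem
-/

set_option autoImplicit false

namespace Pool.Agent.H42.BX

open Finset Pool.Agent.H14RC

lemma B_concaveOn (m : ℕ) : ConcaveOn ℝ (Set.Icc 0 1) (B m) := by
  refine ⟨convex_Icc 0 1, ?_⟩
  intro x hx y hy s t hs ht hst
  have h := B_conc m x y s t hx.1 hx.2 hy.1 hy.2 hs ht hst
  simpa [smul_eq_mul] using h

/-- The least line at `y > 0` has entries in `{a, a+1}`. -/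
lemma exists_near (m : ℕ) {y : ℝ} (hy : 0 < y) : ∃ (T : List ℕ) (a : ℕ), Adm m T ∧
    (∀ j ∈ T, j = a ∨ j = a + 1) ∧ L m y = V m T y := by
  obtain ⟨T, hT, e⟩ := exists_min m hy
  obtain ⟨T', hT', _, ⟨a, ha⟩, hV⟩ := near_equal hy.le _ T hT rfl
  exact ⟨T', a, hT', ha, le_antisymm (L_le hT' hy.le) (hV.trans e.ge)⟩

lemma F_le_ccB {m : ℕ} (hm : 2 ≤ m) {x : ℝ} (h0 : 0 ≤ x) (h1 : x ≤ 1) :
    F m x ≤ (m : ℝ) / (m - 1) * L m (min x (1 - x) / ((m : ℝ) / (m - 1))) ∧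
      (m : ℝ) / (m - 1) * L m (min x (1 - x) / ((m : ℝ) / (m - 1))) ≤
        (m : ℝ) / (m - 1) * B m x :=
  ⟨F_le_cB hm h0 h1, cB_le hm h0 h1⟩

lemma F_le_cG {m : ℕ} (hm : 2 ≤ m) {x : ℝ} (h0 : 0 ≤ x) (h1 : x ≤ 1) :
    F m x ≤ (m : ℝ) / (m - 1) * (G x + 5 / (m : ℝ) ^ 2) := by
  have h := F_le_ccB hm h0 h1
  have h2 := B_le_G hm h0 h1
  have h3 := cc_one_lt hm
  unfold cc at h3
  exact (h.1.trans h.2).trans (mul_le_mul_of_nonneg_left h2 (by linarith))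

end Pool.Agent.H42.BX
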