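import Pool.Agent.H42.BX.Upper

/-!
# The box function is close to `G`: `B m x ≤ G x + 5/m²`
-/

set_option autoImplicit false

namespace Pool.Agent.H42.BX

open Finset Pool.Agent.H14RC

lemma P_replicate (m j k : ℕ) : P m (List.replicate k j) = ((j : ℝ) / m) ^ k := by
  unfold P
  rw [List.map_replicate, List.prod_replicate]

lemma S_replicate (m j k : ℕ) : S m (List.replicate k j) = k * ((m : ℝ) / j) := by
  unfold S
  rw [List.map_replicate, List.sum_replicate, nsmul_eq_mul]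

/-- The error of rounding the side `r` up to `t`. -/
lemma round_err (k : ℕ) {r t : ℝ} (hr : 0 ≤ r) (hrt : r ≤ t) :
    t ^ (k + 2) - ((k : ℝ) + 2) * t * r ^ (k + 1) + ((k : ℝ) + 1) * r ^ (k + 2) ≤
      (t - r) ^ 2 * (((k : ℝ) + 1) * ((k : ℝ) + 2) / 2 * t ^ k) := by
  induction k with
  | zero => norm_num; nlinarith
  | succ k ih =>
    have ht : 0 ≤ t := hr.trans hrt
    have h1 := mul_le_mul_of_nonneg_left ih ht
    have h2 : r ^ (k + 1) ≤ t ^ (k + 1) := pow_le_pow_left₀ hr hrt _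
    have h3 : ((k : ℝ) + 2) * r ^ (k + 1) * (t - r) ^ 2 ≤
        ((k : ℝ) + 2) * t ^ (k + 1) * (t - r) ^ 2 := by gcongr
    have e : t ^ (k + 1 + 2) - (((k + 1 : ℕ) : ℝ) + 2) * t * r ^ (k + 1 + 1) +
        (((k + 1 : ℕ) : ℝ) + 1) * r ^ (k + 1 + 2) =
        t * (t ^ (k + 2) - ((k : ℝ) + 2) * t * r ^ (k + 1) + ((k : ℝ) + 1) * r ^ (k + 2)) +
          ((k : ℝ) + 2) * r ^ (k + 1) * (t - r) ^ 2 := by
      push_cast
      ring
    have e2 : (t - r) ^ 2 * ((((k + 1 : ℕ) : ℝ) + 1) * (((k + 1 : ℕ) : ℝ) + 2) / 2 * t ^ (k + 1)) =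
        t * ((t - r) ^ 2 * (((k : ℝ) + 1) * ((k : ℝ) + 2) / 2 * t ^ k)) +
          ((k : ℝ) + 2) * t ^ (k + 1) * (t - r) ^ 2 := by
      push_cast
      ring
    rw [e, e2]
    linarith

lemma coef_aux (k : ℕ) : ((k : ℝ) + 4) * ((k : ℝ) + 5) / 2 * (2 / 3 : ℝ) ^ (k + 2) ≤ 5 := by
  induction k with
  | zero => norm_num
  | succ k ih =>
    have hk : (0 : ℝ) ≤ k := Nat.cast_nonneg k
    have hp : (0 : ℝ) < (2 / 3 : ℝ) ^ (k + 2) := by positivity
    have e : (((k + 1 : ℕ) : ℝ) + 4) * (((k + 1 : ℕ) : ℝ) + 5) / 2 * (2 / 3 : ℝ) ^ (k + 1 + 2) =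
        ((k : ℝ) + 5) * (2 * ((k : ℝ) + 6)) / 6 * (2 / 3 : ℝ) ^ (k + 2) := by
      push_cast
      ring
    rw [e]
    refine le_trans ?_ ih
    apply mul_le_mul_of_nonneg_right _ hp.le
    nlinarith

/-- `(k+2)(k+3)/2 (2/3)^k ≤ 5`. -/
lemma coef (k : ℕ) : ((k : ℝ) + 2) * ((k : ℝ) + 3) / 2 * (2 / 3 : ℝ) ^ k ≤ 5 := by
  rcases k with _ | _ | k
  · norm_num
  · norm_num
  · have := coef_aux k
    push_cast
    have e : ((k : ℝ) + 1 + 1 + 2) * ((k : ℝ) + 1 + 1 + 3) = ((k : ℝ) + 4) * ((k : ℝ) + 5) := by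
      ring
    rw [e]
    exact this

lemma pow_half (k : ℕ) : (((k : ℝ) + 1) / ((k : ℝ) + 2)) ^ (k + 2) ≤ 1 / 2 := by
  have h := two_le_pow k
  have hk1 : (0 : ℝ) < (k : ℝ) + 1 := by positivity
  have hk2 : (0 : ℝ) < (k : ℝ) + 2 := by positivity
  have e : ((k : ℝ) + 1) / ((k : ℝ) + 2) = (1 + 1 / ((k : ℝ) + 1))⁻¹ := by
    field_simp
    ring
  have h1 : (1 : ℝ) ≤ 1 + 1 / ((k : ℝ) + 1) := by
    have : (0 : ℝ) ≤ 1 / ((k : ℝ) + 1) := by positivity
    linarith
  have h2 : (2 : ℝ) ≤ (1 + 1 / ((k : ℝ) + 1)) ^ (k + 2) := by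
    refine h.trans ?_
    exact pow_le_pow_right₀ h1 (by omega)
  rw [e, inv_pow]
  rw [inv_le_comm₀ (by positivity) (by norm_num)]
  linarith

/-- The range of the best index. -/
lemma exists_best {x : ℝ} (h0 : 0 < x) (h1 : x ≤ 1 / 4) : ∃ (k : ℕ) (r : ℝ), 0 < r ∧
    x = r ^ (k + 2) ∧ (((k : ℝ) + 2) / ((k : ℝ) + 3)) ^ (k + 3) ≤ r ∧
    r ≤ (((k : ℝ) + 1) / ((k : ℝ) + 2)) ^ (k + 1) := by
  have hex : ∃ n : ℕ, (((n : ℝ) + 1) / ((n : ℝ) + 2)) ^ ((n + 1) * (n + 2)) < x := by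
    obtain ⟨n, hn⟩ := exists_pow_lt_of_lt_one h0 (show (1 : ℝ) / 2 < 1 by norm_num)
    refine ⟨n, lt_of_le_of_lt ?_ hn⟩
    have h2 := pow_half n
    have h3 : (((n : ℝ) + 1) / ((n : ℝ) + 2)) ^ ((n + 1) * (n + 2)) =
        ((((n : ℝ) + 1) / ((n : ℝ) + 2)) ^ (n + 2)) ^ (n + 1) := by
      rw [← pow_mul, mul_comm (n + 2)]
    rw [h3]
    calc ((((n : ℝ) + 1) / ((n : ℝ) + 2)) ^ (n + 2)) ^ (n + 1) ≤ (1 / 2 : ℝ) ^ (n + 1) :=
          pow_le_pow_left₀ (by positivity) h2 _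
      _ ≤ (1 / 2 : ℝ) ^ n := pow_le_pow_of_le_one (by norm_num) (by norm_num) (by omega)
  classical
  set n := Nat.find hex with hn
  have hspec := Nat.find_spec hex
  rw [← hn] at hspec
  have hn0 : n ≠ 0 := by
    intro h
    rw [h] at hspec
    norm_num at hspec
    linarith
  obtain ⟨k, hk⟩ := Nat.exists_eq_succ_of_ne_zero hn0
  have hmin : ¬ (((k : ℝ) + 1) / ((k : ℝ) + 2)) ^ ((k + 1) * (k + 2)) < x :=
    Nat.find_min hex (m := k) (by rw [← hn, hk]; exact Nat.lt_succ_self k)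
  push Not at hmin
  rw [hk] at hspec
  obtain ⟨r, hr0, hr⟩ := exists_root (k + 1) h0.le
  have hr' : r ^ (k + 2) = x := hr
  have hrpos : 0 < r := by
    rcases eq_or_lt_of_le hr0 with h | h
    · rw [← h] at hr'
      rw [zero_pow (by omega)] at hr'
      linarith
    · exact h
  refine ⟨k, r, hrpos, hr'.symm, ?_, ?_⟩
  · by_contra hcon
    push Not at hcon
    have h2 := pow_lt_pow_left₀ hcon hr0 (show k + 2 ≠ 0 by omega)
    rw [hr', ← pow_mul] at h2
    have e : (((Nat.succ k : ℕ) : ℝ) + 1) / (((Nat.succ k : ℕ) : ℝ) + 2) =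
        ((k : ℝ) + 2) / ((k : ℝ) + 3) := by
      rw [Nat.succ_eq_add_one]
      push_cast
      congr 1 <;> ring
    have e2 : (Nat.succ k + 1) * (Nat.succ k + 2) = (k + 3) * (k + 2) := by
      rw [Nat.succ_eq_add_one]; ring
    rw [e, e2] at hspec
    linarith
  · by_contra hcon
    push Not at hcon
    have h2 := pow_lt_pow_left₀ hcon (by positivity) (show k + 2 ≠ 0 by omega)
    rw [hr', ← pow_mul] at h2
    linarith

/-- The box function is close to `G`. -/
theorem B_le_G {m : ℕ} (hm : 2 ≤ m) {x : ℝ} (h0 : 0 ≤ x) (h1 : x ≤ 1) :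
    B m x ≤ G x + 5 / (m : ℝ) ^ 2 := by
  have hmpos : (0 : ℝ) < m := by exact_mod_cast (by omega : 0 < m)
  -- reduction to `x ≤ 1/2`
  have key : ∀ y : ℝ, 0 ≤ y → y ≤ 1 / 2 → L m y ≤ G y + 5 / (m : ℝ) ^ 2 := by
    intro y hy0 hy1
    have hG0 := G_nonneg hy0 (show y ≤ 1 by linarith)
    have h5 : 0 ≤ 5 / (m : ℝ) ^ 2 := by positivity
    rcases eq_or_lt_of_le hy0 with h | h
    · rw [← h, L_zero hm, G_zero]; linarith
    rcases le_or_gt (1 / 4) y with h4 | h4
    · have h6 := w_le_G hy0 (show y ≤ 1 by linarith)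
      rw [min_eq_left (le_min (by linarith) (by linarith))] at h6
      have h7 := L_le_one m hy0
      linarith
    rcases eq_or_lt_of_le hm with hm2 | hm3
    · have h7 := L_le_one m hy0
      rw [← hm2]
      norm_num
      rw [← hm2] at h7
      linarith
    obtain ⟨k, r, hr0, hx, hr1, hr2⟩ := exists_best h h4.le
    have hm3' : (3 : ℝ) ≤ m := by exact_mod_cast hm3
    have hrhalf : r ≤ 1 / 2 := by
      refine hr2.trans ?_
      have h8 := two_le_pow k
      have e : ((k : ℝ) + 1) / ((k : ℝ) + 2) = (1 + 1 / ((k : ℝ) + 1))⁻¹ := by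
        field_simp
        ring
      rw [e, inv_pow, inv_le_comm₀ (by positivity) (by norm_num)]
      linarith
    have hG : G y = ((k : ℝ) + 2) * r ^ (k + 1) := by
      have h9 := G_eq_pow (k + 1) (r := r) (by push_cast; convert hr1 using 2; ring)
        (by push_cast; convert hr2 using 2; ring) (by
          have : r ^ (k + 1 + 1) = y := hx.symm
          rw [this]; linarith)
      have e1 : r ^ (k + 1 + 1) = y := hx.symm
      rw [e1] at h9
      rw [h9]
      push_cast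
      ring
    -- the side
    set j : ℕ := ⌈(m : ℝ) * r⌉₊ with hj
    have hj1 : (m : ℝ) * r ≤ j := Nat.le_ceil _
    have hj2 : (j : ℝ) < m * r + 1 := Nat.ceil_lt_add_one (by positivity)
    have hj0 : 0 < j := Nat.ceil_pos.2 (by positivity)
    have hjm' : (j : ℝ) < m := by nlinarith
    have hjm : j < m := by exact_mod_cast hjm'
    have hj3 : 3 * j ≤ 2 * m := by
      have h8 : (j : ℝ) < m / 2 + 1 := by nlinarith
      have h9 : 2 * j < m + 2 := by
        have : (2 : ℝ) * j < m + 2 := by linarith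
        exact_mod_cast this
      omega
    set t : ℝ := (j : ℝ) / m with ht
    have ht0 : 0 < t := by
      have : (0 : ℝ) < j := by exact_mod_cast hj0
      positivity
    have hrt : r ≤ t := by rw [ht, le_div_iff₀ hmpos]; linarith
    have htr : t - r ≤ 1 / m := by
      rw [ht, sub_le_iff_le_add, div_le_iff₀ hmpos, add_mul, one_div, inv_mul_cancel₀ hmpos.ne']
      linarith
    have ht23 : t ≤ 2 / 3 := by
      rw [ht, div_le_iff₀ hmpos]
      have : (3 : ℝ) * j ≤ 2 * m := by exact_mod_cast hj3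
      linarith
    have hL := L_le (Adm_replicate hj0 hjm (k + 1)) hy0
    unfold V at hL
    rw [P_replicate, S_replicate, ← ht] at hL
    have e1 : (m : ℝ) / j = 1 / t := by rw [ht, one_div_div]
    rw [e1] at hL
    refine hL.trans ?_
    rw [hG]
    have herr := round_err k hr0.le hrt
    -- the square of the rounding error
    have hsq : (t - r) ^ 2 ≤ 1 / (m : ℝ) ^ 2 := by
      have := pow_le_pow_left₀ (show 0 ≤ t - r by linarith) htr 2
      rwa [one_div_pow] at this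
    have hcoef : ((k : ℝ) + 1) * ((k : ℝ) + 2) / 2 * t ^ k ≤ 5 * t := by
      rcases k with _ | k
      · have h8 : (8 : ℝ) / 27 ≤ r := by
          refine le_trans ?_ hr1
          norm_num
        norm_num
        linarith
      · have h8 := coef k
        have h9 : t ^ k ≤ (2 / 3 : ℝ) ^ k := pow_le_pow_left₀ ht0.le ht23 k
        have hk : (0 : ℝ) ≤ k := Nat.cast_nonneg k
        have h10 : ((k : ℝ) + 2) * ((k : ℝ) + 3) / 2 * t ^ k ≤ 5 := by
          refine le_trans ?_ h8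
          gcongr
        have e : (((k + 1 : ℕ) : ℝ) + 1) * (((k + 1 : ℕ) : ℝ) + 2) / 2 * t ^ (k + 1) =
            (((k : ℝ) + 2) * ((k : ℝ) + 3) / 2 * t ^ k) * t := by
          push_cast
          ring
        rw [e]
        gcongr
    have hfin : t ^ (k + 2) - ((k : ℝ) + 2) * t * r ^ (k + 1) + ((k : ℝ) + 1) * r ^ (k + 2) ≤
        1 / (m : ℝ) ^ 2 * (5 * t) := by
      refine herr.trans ?_
      exact mul_le_mul hsq hcoef (by positivity) (by positivity)
    have e2 : t ^ (k + 1) + y * (((k + 1 : ℕ) : ℝ) * (1 / t)) -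
        (((k : ℝ) + 2) * r ^ (k + 1) + 5 / (m : ℝ) ^ 2) =
        (t ^ (k + 2) - ((k : ℝ) + 2) * t * r ^ (k + 1) + ((k : ℝ) + 1) * r ^ (k + 2) -
          1 / (m : ℝ) ^ 2 * (5 * t)) / t := by
      rw [hx]
      push_cast
      field_simp
      ring
    have h12 : (t ^ (k + 2) - ((k : ℝ) + 2) * t * r ^ (k + 1) + ((k : ℝ) + 1) * r ^ (k + 2) -
          1 / (m : ℝ) ^ 2 * (5 * t)) / t ≤ 0 :=
      div_nonpos_of_nonpos_of_nonneg (by linarith) ht0.le
    linarith
  unfold B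
  rcases le_total x (1 - x) with h | h
  · rw [min_eq_left h]; exact key x h0 (by linarith)
  · rw [min_eq_right h, ← G_symm x]
    exact key (1 - x) (by linarith) (by linarith)

end Pool.Agent.H42.BX
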