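import Pool.Agent.H42.BX.Two

/-!
# From two points to `m` points

A concave function on `[0,1]` which satisfies the two-point inequality with all the weights `j/m`
is relaxed `m`-convex; so the box function is in the class.
-/

set_option autoImplicit false

namespace Pool.Agent.H42.BX

open Finset Pool.Agent.H14RC

/-- Concavity on `[0,1]` in two-point form. -/
def Conc (f : ℝ → ℝ) : Prop := ∀ x y s t : ℝ, 0 ≤ x → x ≤ 1 → 0 ≤ y → y ≤ 1 → 0 ≤ s → 0 ≤ t →
  s + t = 1 → s * f x + t * f y ≤ f (s * x + t * y)

lemma Conc.three {f : ℝ → ℝ} (hf : Conc f) {u v w : ℝ} (hu : 0 ≤ u) (huv : u ≤ v) (hvw : v ≤ w)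
    (hw : w ≤ 1) : (w - v) * f u + (v - u) * f w ≤ (w - u) * f v := by
  rcases eq_or_lt_of_le (huv.trans hvw) with h | h
  · have h1 : v = u := by linarith
    have h2 : w = u := by linarith
    subst h1; subst h2; simp
  · have hd : 0 < w - u := by linarith
    have := hf u w ((w - v) / (w - u)) ((v - u) / (w - u)) hu (by linarith) (by linarith) hw
      (div_nonneg (by linarith) hd.le) (div_nonneg (by linarith) hd.le) (by field_simp; ring)
    have e : (w - v) / (w - u) * u + (v - u) / (w - u) * w = v := by
      field_simp; ring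
    rw [e] at this
    have := mul_le_mul_of_nonneg_left this hd.le
    have e2 : (w - u) * ((w - v) / (w - u) * f u + (v - u) / (w - u) * f w)
        = (w - v) * f u + (v - u) * f w := by
      field_simp
    rw [e2] at this
    exact this

/-- The slopes of a concave function decrease. -/
lemma Conc.slope {f : ℝ → ℝ} (hf : Conc f) {x1 y1 x2 y2 : ℝ} (h0 : 0 ≤ x1) (h1 : x1 < y1)
    (h2 : x2 < y2) (h3 : x1 ≤ x2) (h4 : y1 ≤ y2) (h5 : y2 ≤ 1) :
    (f y2 - f x2) * (y1 - x1) ≤ (f y1 - f x1) * (y2 - x2) := by
  have a1 := hf.three h0 h1.le h4 h5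
  have a2 := hf.three h0 h3 h2.le h5
  have b1 : (f y2 - f x1) * (y1 - x1) ≤ (f y1 - f x1) * (y2 - x1) := by nlinarith
  have b2 : (f y2 - f x2) * (y2 - x1) ≤ (f y2 - f x1) * (y2 - x2) := by nlinarith
  have hpos : 0 < y2 - x1 := by linarith
  have c1 := mul_le_mul_of_nonneg_right b1 (show 0 ≤ y2 - x2 by linarith)
  have c2 := mul_le_mul_of_nonneg_right b2 (show 0 ≤ y1 - x1 by linarith)
  have c3 : (y2 - x1) * ((f y2 - f x2) * (y1 - x1)) ≤ (y2 - x1) * ((f y1 - f x1) * (y2 - x2)) := by
    nlinarith
  exact le_of_mul_le_mul_left c3 hpos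

/-- The counting inequality. -/
lemma sum_above {m q : ℕ} {x : ℕ → ℝ} {a b u : ℝ} (hau : a ≤ u) (hub : u ≤ b)
    (ha : ∀ i, i < m → a ≤ x i) (hb : ∀ i, i < m → x i ≤ b)
    (hs : ∑ i ∈ range m, x i = ((m : ℝ) - 1 - q) * a + u + q * b) :
    ∑ i ∈ range m, max (x i - u) 0 ≤ q * (b - u) := by
  have e1 : ∑ i ∈ range m, max (x i - u) 0 = ∑ i ∈ (range m).filter (fun i => u < x i),
      (x i - u) := by
    rw [sum_filter]
    apply sum_congr rfl
    intro i _
    split_ifs with h
    · exact max_eq_left (by linarith)
    · exact max_eq_right (by linarith)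
  rw [e1]
  set K := (range m).filter (fun i => u < x i) with hK
  have hKr : ∀ i ∈ K, i < m := fun i hi => by
    rw [hK, mem_filter, mem_range] at hi; exact hi.1
  rcases le_or_gt K.card q with h | h
  · calc ∑ i ∈ K, (x i - u) ≤ ∑ i ∈ K, (b - u) :=
          sum_le_sum fun i hi => by linarith [hb i (hKr i hi)]
      _ = K.card * (b - u) := by rw [sum_const, nsmul_eq_mul]
      _ ≤ q * (b - u) := by
          apply mul_le_mul_of_nonneg_right _ (by linarith)
          exact_mod_cast h
  · have e2 := sum_filter_add_sum_filter_not (range m) (fun i => u < x i) x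
    rw [← hK] at e2
    set K' := (range m).filter (fun i => ¬ u < x i) with hK'
    have hcard : (K.card : ℝ) + K'.card = m := by
      have := card_filter_add_card_filter_not (s := range m) (fun i => u < x i)
      rw [card_range] at this
      exact_mod_cast this
    have e3 : (K'.card : ℝ) * a ≤ ∑ i ∈ K', x i := by
      calc (K'.card : ℝ) * a = ∑ i ∈ K', a := by simp
        _ ≤ _ := sum_le_sum fun i hi => by
          rw [hK', mem_filter, mem_range] at hi
          exact ha i hi.1
    have e4 : ∑ i ∈ K, (x i - u) = ∑ i ∈ K, x i - K.card * u := by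
      rw [sum_sub_distrib]; simp
    rw [e4]
    have hk : (q : ℝ) + 1 ≤ K.card := by exact_mod_cast h
    have e5 : 0 ≤ ((K.card : ℝ) - 1 - q) * (u - a) :=
      mul_nonneg (by linarith) (by linarith)
    have e6 : (K'.card : ℝ) = m - K.card := by linarith
    rw [e6] at e3
    nlinarith

/-- Among the tuples with given extremes and given sum the sum of a concave function is smallest
when all the points but one are extreme. -/
lemma majorize {m q : ℕ} {f : ℝ → ℝ} (hf : Conc f) {x : ℕ → ℝ} {a b u : ℝ}
    (ha0 : 0 ≤ a) (hb1 : b ≤ 1) (hau : a ≤ u) (hub : u < b)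
    (ha : ∀ i, i < m → a ≤ x i) (hb : ∀ i, i < m → x i ≤ b)
    (hs : ∑ i ∈ range m, x i = ((m : ℝ) - 1 - q) * a + u + q * b) :
    ((m : ℝ) - 1 - q) * f a + f u + q * f b ≤ ∑ i ∈ range m, f (x i) := by
  set β : ℝ := (f b - f u) / (b - u) with hβ
  have hbu : 0 < b - u := by linarith
  have hβm : β * (b - u) = f b - f u := by rw [hβ]; field_simp
  -- the slope on the left
  obtain ⟨α, hα, hαβ, hlow⟩ : ∃ α : ℝ, f u = f a + α * (u - a) ∧ β ≤ α ∧
      ∀ y, a ≤ y → y ≤ b → f a + α * (y - a) - (α - β) * max (y - u) 0 ≤ f y := by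
    rcases eq_or_lt_of_le hau with h | h
    · refine ⟨β, by rw [← h]; ring, le_rfl, ?_⟩
      intro y hy1 hy2
      have h1 := hf.three (u := u) (v := y) (w := b) (by linarith) (by linarith) hy2 hb1
      have h2 : (b - u) * (f u + β * (y - u)) ≤ (b - u) * f y := by
        have : (b - u) * (f u + β * (y - u)) = (b - u) * f u + (β * (b - u)) * (y - u) := by ring
        rw [this, hβm]
        nlinarith
      have h3 := le_of_mul_le_mul_left h2 hbu
      rw [h]
      linarith
    · have hua : 0 < u - a := by linarith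
      set α : ℝ := (f u - f a) / (u - a) with hα
      have hαm : α * (u - a) = f u - f a := by rw [hα]; field_simp
      have hαβ : β ≤ α := by
        have h1 := hf.slope ha0 h hub hau hub.le hb1
        rw [hα, hβ, div_le_div_iff₀ hbu hua]
        linarith
      refine ⟨α, by linarith, hαβ, ?_⟩
      intro y hy1 hy2
      rcases le_or_gt y u with hyu | hyu
      · rw [max_eq_right (by linarith), mul_zero, sub_zero]
        have h1 := hf.three (u := a) (v := y) (w := u) ha0 hy1 hyu (by linarith)
        have h2 : (u - a) * (f a + α * (y - a)) ≤ (u - a) * f y := by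
          have : (u - a) * (f a + α * (y - a)) = (u - a) * f a + (α * (u - a)) * (y - a) := by
            ring
          rw [this, hαm]
          nlinarith
        exact le_of_mul_le_mul_left h2 hua
      · rw [max_eq_left (by linarith)]
        have h1 := hf.three (u := u) (v := y) (w := b) (by linarith) hyu.le hy2 hb1
        have h2 : (b - u) * (f u + β * (y - u)) ≤ (b - u) * f y := by
          have : (b - u) * (f u + β * (y - u)) = (b - u) * f u + (β * (b - u)) * (y - u) := by
            ring
          rw [this, hβm]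
          nlinarith
        have h3 := le_of_mul_le_mul_left h2 hbu
        have h4 : f a + α * (y - a) - (α - β) * (y - u) =
            (f a + α * (u - a)) + β * (y - u) := by ring
        rw [h4, hαm]
        linarith
  have h1 : ∑ i ∈ range m, (f a + α * (x i - a) - (α - β) * max (x i - u) 0) ≤
      ∑ i ∈ range m, f (x i) :=
    sum_le_sum fun i hi => hlow _ (ha i (mem_range.1 hi)) (hb i (mem_range.1 hi))
  have h2 : ∑ i ∈ range m, (f a + α * (x i - a) - (α - β) * max (x i - u) 0) =
      m * f a + α * (∑ i ∈ range m, x i - m * a) -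
        (α - β) * ∑ i ∈ range m, max (x i - u) 0 := by
    rw [sum_sub_distrib, sum_add_distrib, ← mul_sum, ← mul_sum, sum_sub_distrib]
    simp
  have h3 := sum_above hau hub.le ha hb hs
  have h4 : (α - β) * ∑ i ∈ range m, max (x i - u) 0 ≤ (α - β) * (q * (b - u)) :=
    mul_le_mul_of_nonneg_left h3 (by linarith)
  rw [h2, hs] at h1
  have h5 : f b = f a + α * (u - a) + β * (b - u) := by linarith
  rw [h5, hα]
  nlinarith

/-- The reduction to two points. -/
theorem relaxed_of_two {m : ℕ} (hm : 2 ≤ m) {f : ℝ → ℝ} (hf : Conc f)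
    (h2 : ∀ a b : ℝ, 0 ≤ a → a ≤ b → b ≤ 1 → ∀ j : ℕ, 0 < j → j < m →
      f ((1 - (j : ℝ) / m) * a + (j : ℝ) / m * b) ≤
        (1 - (j : ℝ) / m) * f a + (j : ℝ) / m * f b + (b - a)) : RelaxedConvex m f := by
  have hmpos : (0 : ℝ) < m := by exact_mod_cast (by omega : 0 < m)
  -- weights 0 and 1 are trivial
  have h2' : ∀ a b : ℝ, 0 ≤ a → a ≤ b → b ≤ 1 → ∀ j : ℕ, j ≤ m →
      f ((1 - (j : ℝ) / m) * a + (j : ℝ) / m * b) ≤
        (1 - (j : ℝ) / m) * f a + (j : ℝ) / m * f b + (b - a) := by
    intro a b ha hab hb j hj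
    rcases Nat.eq_zero_or_pos j with h | h
    · subst h
      simp only [Nat.cast_zero, zero_div, sub_zero, one_mul, zero_mul, add_zero]
      linarith
    rcases eq_or_lt_of_le hj with h' | h'
    · subst h'
      rw [div_self hmpos.ne']
      simp only [sub_self, zero_mul, one_mul, zero_add]
      linarith
    · exact h2 a b ha hab hb j h h'
  intro x hx hmono
  have h0 : ∀ i, i < m → x 0 ≤ x i := fun i hi => hmono 0 i (by omega) hi
  have h1 : ∀ i, i < m → x i ≤ x (m - 1) := fun i hi => hmono i (m - 1) (by omega) (by omega)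
  have hA0 : 0 ≤ x 0 := (hx 0 (by omega)).1
  have hB1 : x (m - 1) ≤ 1 := (hx (m - 1) (by omega)).2
  set a := x 0 with ha
  set b := x (m - 1) with hb
  have hab : a ≤ b := h1 0 (by omega)
  rcases eq_or_lt_of_le hab with h | h
  · have hall : ∀ i ∈ range m, x i = a := fun i hi => by
      have := h0 i (mem_range.1 hi)
      have := h1 i (mem_range.1 hi)
      linarith
    have hall2 : ∀ i ∈ range m, f (x i) = f a := fun i hi => by rw [hall i hi]
    rw [sum_congr rfl hall, sum_congr rfl hall2, sum_const, sum_const, card_range, nsmul_eq_mul,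
      nsmul_eq_mul, mul_div_cancel_left₀ _ hmpos.ne', mul_div_cancel_left₀ _ hmpos.ne']
    linarith
  have hd : 0 < b - a := by linarith
  set s := ∑ i ∈ range m, x i with hs
  have hs1 : (m : ℝ) * a ≤ s := by
    calc (m : ℝ) * a = ∑ i ∈ range m, a := by simp
      _ ≤ s := sum_le_sum fun i hi => h0 i (mem_range.1 hi)
  have hs2 : s < m * b := by
    calc s < ∑ i ∈ range m, b := by
          apply sum_lt_sum (fun i hi => h1 i (mem_range.1 hi))
          exact ⟨0, mem_range.2 (by omega), by rw [← ha]; exact h⟩
      _ = m * b := by simp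
  set θ := (s - m * a) / (b - a) with hθ
  have hθ0 : 0 ≤ θ := div_nonneg (by linarith) hd.le
  have hθm : θ < m := by
    rw [hθ, div_lt_iff₀ hd]; nlinarith
  have hθd : θ * (b - a) = s - m * a := by rw [hθ]; field_simp
  set q := ⌊θ⌋₊ with hq
  have hq1 : (q : ℝ) ≤ θ := Nat.floor_le hθ0
  have hq2 : θ < q + 1 := Nat.lt_floor_add_one θ
  have hqm : q < m := by
    have : (q : ℝ) < m := lt_of_le_of_lt hq1 hθm
    exact_mod_cast this
  set u := a + (θ - q) * (b - a) with hu
  have hau : a ≤ u := by
    have := mul_nonneg (show 0 ≤ θ - q by linarith) hd.le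
    linarith
  have hub : u < b := by
    have : (θ - q) * (b - a) < 1 * (b - a) := by
      apply mul_lt_mul_of_pos_right _ hd
      linarith
    linarith
  have hsu : s = ((m : ℝ) - 1 - q) * a + u + q * b := by
    have : u = a + θ * (b - a) - q * (b - a) := by rw [hu]; ring
    rw [this, hθd]; ring
  have hmaj := majorize hf hA0 hB1 hau hub h0 h1 hsu
  -- the mean
  set X := s / m with hX
  have hXm : m * X = s := by rw [hX]; field_simp
  have hX1 : X ≤ 1 := by nlinarith
  have hXa : a ≤ X := by
    rw [hX, le_div_iff₀ hmpos]; linarith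
  have hXb : X ≤ b := by
    rw [hX, div_le_iff₀ hmpos]; linarith
  have goal' : f X ≤ (((m : ℝ) - 1 - q) * f a + f u + q * f b) / m + (b - a) := by
    rcases le_or_gt u X with hc | hc
    · -- compare with `q` points `b`
      have t := h2' a b hA0 hab hB1 q hqm.le
      set Xq := (1 - (q : ℝ) / m) * a + (q : ℝ) / m * b with hXq
      have e1 : m * Xq = s - (u - a) := by
        rw [hXq, hsu]; field_simp; ring
      have e2 : (q : ℝ) / m * m = q := by field_simp
      have hXqa : a ≤ Xq := by
        have : 0 ≤ (q : ℝ) / m * (b - a) := by positivity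
        rw [hXq]; linarith
      have t2 : m * f Xq ≤ ((m : ℝ) - q) * f a + q * f b + m * (b - a) := by
        have := mul_le_mul_of_nonneg_left t hmpos.le
        have e3 : (m : ℝ) * ((1 - (q : ℝ) / m) * f a + (q : ℝ) / m * f b + (b - a)) =
            ((m : ℝ) - q) * f a + q * f b + m * (b - a) := by field_simp
        linarith
      have t3 : m * (f X - f Xq) ≤ f u - f a := by
        rcases eq_or_lt_of_le hau with h' | h'
        · have : Xq = X := by
            have : m * Xq = m * X := by rw [e1, hXm, ← h']; ring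
            exact mul_left_cancel₀ hmpos.ne' this
          rw [this, ← h']; simp
        · have hlt : Xq < X := by
            have : m * Xq < m * X := by rw [e1, hXm]; linarith
            exact lt_of_mul_lt_mul_left this hmpos.le
          have := hf.slope hA0 h' hlt hXqa hc hX1
          have e4 : u - a = m * (X - Xq) := by
            rw [mul_sub, hXm, e1]; ring
          rw [e4] at this
          have hp : 0 < X - Xq := by linarith
          have : (X - Xq) * (m * (f X - f Xq)) ≤ (X - Xq) * (f u - f a) := by nlinarith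
          exact le_of_mul_le_mul_left this hp
      rw [← sub_le_iff_le_add, le_div_iff₀ hmpos]
      nlinarith
    · have t := h2' a b hA0 hab hB1 (q + 1) hqm
      push_cast at t
      set Xq := (1 - ((q : ℝ) + 1) / m) * a + ((q : ℝ) + 1) / m * b with hXq
      have e1 : m * Xq = s + (b - u) := by
        rw [hXq, hsu]; field_simp; ring
      have hlt : X < Xq := by
        have : m * X < m * Xq := by rw [e1, hXm]; linarith
        exact lt_of_mul_lt_mul_left this hmpos.le
      have hq1' : ((q : ℝ) + 1) / m ≤ 1 := by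
        rw [div_le_one hmpos]; exact_mod_cast hqm
      have hXqb : Xq ≤ b := by
        have : 0 ≤ (1 - ((q : ℝ) + 1) / m) * (b - a) := mul_nonneg (by linarith) hd.le
        rw [hXq]; linarith
      have t2 : m * f Xq ≤ ((m : ℝ) - (q + 1)) * f a + (q + 1) * f b + m * (b - a) := by
        have := mul_le_mul_of_nonneg_left t hmpos.le
        have e3 : (m : ℝ) * ((1 - ((q : ℝ) + 1) / m) * f a + ((q : ℝ) + 1) / m * f b + (b - a)) =
            ((m : ℝ) - (q + 1)) * f a + (q + 1) * f b + m * (b - a) := by field_simp
        linarith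
      have t3 : f b - f u ≤ m * (f Xq - f X) := by
        have := hf.slope (x1 := X) (y1 := Xq) (x2 := u) (y2 := b) (by linarith) hlt hub hc.le
          hXqb hB1
        have e4 : b - u = m * (Xq - X) := by
          rw [mul_sub, hXm, e1]; ring
        rw [e4] at this
        have hp : 0 < Xq - X := by linarith
        have : (Xq - X) * (f b - f u) ≤ (Xq - X) * (m * (f Xq - f X)) := by nlinarith
        exact le_of_mul_le_mul_left this hp
      rw [← sub_le_iff_le_add, le_div_iff₀ hmpos]
      nlinarith
  have h6 : (((m : ℝ) - 1 - q) * f a + f u + q * f b) / m ≤ (∑ i ∈ range m, f (x i)) / m := by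
    gcongr
  linarith

lemma B_conc (m : ℕ) : Conc (B m) := by
  intro x y s t hx0 hx1 hy0 hy1 hs ht hst
  have hx : 0 ≤ min x (1 - x) := le_min hx0 (by linarith)
  have hy : 0 ≤ min y (1 - y) := le_min hy0 (by linarith)
  unfold B
  refine (L_conc m hx hy hs ht hst).trans ?_
  apply L_mono m
  · have := mul_nonneg hs hx
    have := mul_nonneg ht hy
    linarith
  · apply le_min
    · exact add_le_add (mul_le_mul_of_nonneg_left (min_le_left _ _) hs)
        (mul_le_mul_of_nonneg_left (min_le_left _ _) ht)
    · have e : 1 - (s * x + t * y) = s * (1 - x) + t * (1 - y) := by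
        have : s = 1 - t := by linarith
        subst this; ring
      rw [e]
      exact add_le_add (mul_le_mul_of_nonneg_left (min_le_right _ _) hs)
        (mul_le_mul_of_nonneg_left (min_le_right _ _) ht)

/-- The box function is in the class. -/
theorem B_inClass {m : ℕ} (hm : 2 ≤ m) : InClass m (B m) := by
  refine ⟨?_, ?_, ⟨1, ?_⟩, relaxed_of_two hm (B_conc m) ?_⟩
  · unfold B
    rw [min_eq_left (by norm_num), L_zero hm]
  · unfold B
    rw [sub_self, min_eq_right (by norm_num), L_zero hm]
  · intro x h0 h1
    exact L_le_one m (le_min h0 (by linarith))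
  · intro a b ha hab hb j hj0 hjm
    exact B_two hm ha hab hb hj0 hjm

end Pool.Agent.H42.BX
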