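import Pool.Agent.H42.BX.Nodes

/-!
# The minimum is attained by lists with entries in `{a, a+1}`
-/

set_option autoImplicit false

namespace Pool.Agent.H42.BX

open Finset Pool.Agent.H14RC

lemma V_perm {m : ℕ} {T T' : List ℕ} (h : T.Perm T') (y : ℝ) : V m T y = V m T' y := by
  unfold V P S
  rw [(h.map _).prod_eq, (h.map _).sum_eq]

lemma Adm_perm {m : ℕ} {T T' : List ℕ} (h : T.Perm T') (hT : Adm m T) : Adm m T' :=
  fun j hj => hT j (h.mem_iff.2 hj)

/-- Moving the largest side down, or two sides towards each other. -/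
lemma exchange {m : ℕ} (hm : 0 < m) {s u : ℕ} (hu : 0 < u) (hs : u + 2 ≤ s) (R : List ℕ)
    (hR : Adm m R) {y : ℝ} (hy : 0 ≤ y) :
    V m ((s - 1) :: (u + 1) :: R) y ≤ V m (s :: u :: R) y ∨
      V m ((s - 1) :: u :: R) y ≤ V m (s :: u :: R) y := by
  have hmpos : (0 : ℝ) < m := by exact_mod_cast hm
  have hu0 : (0 : ℝ) < u := by exact_mod_cast hu
  have hs0 : (0 : ℝ) < s := by exact_mod_cast (by omega : 0 < s)
  have hsu : (u : ℝ) + 2 ≤ s := by exact_mod_cast hs
  have hs1 : ((s - 1 : ℕ) : ℝ) = s - 1 := by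
    rw [Nat.cast_sub (by omega)]; simp
  have hs10 : (0 : ℝ) < (s : ℝ) - 1 := by linarith
  have hPR := P_pos hR
  rcases le_or_gt (P m R * s * u * (s - 1)) ((m : ℝ) ^ 3 * y) with h | h
  · left
    unfold V
    rw [P_cons, P_cons, S_cons, S_cons, P_cons, P_cons, S_cons, S_cons, hs1]
    push_cast
    have e : (s : ℝ) / m * ((u : ℝ) / m * P m R) + y * ((m : ℝ) / s + ((m : ℝ) / u + S m R)) -
        (((s : ℝ) - 1) / m * (((u : ℝ) + 1) / m * P m R) +
          y * ((m : ℝ) / (s - 1) + ((m : ℝ) / (u + 1) + S m R))) =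
        ((s : ℝ) - u - 1) * ((m : ℝ) ^ 3 * y * (s + u) - P m R * s * u * (s - 1) * (u + 1)) /
          (m ^ 2 * s * u * (s - 1) * (u + 1)) := by
      field_simp
      ring
    have h2 : P m R * s * u * (s - 1) * (u + 1) ≤ (m : ℝ) ^ 3 * y * (s + u) := by
      have h3 := mul_le_mul_of_nonneg_right h (show (0 : ℝ) ≤ (u : ℝ) + 1 by linarith)
      have h4 : (m : ℝ) ^ 3 * y * (u + 1) ≤ (m : ℝ) ^ 3 * y * (s + u) := by
        apply mul_le_mul_of_nonneg_left _ (by positivity)
        linarith
      linarith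
    have h5 : 0 ≤ ((s : ℝ) - u - 1) *
        ((m : ℝ) ^ 3 * y * (s + u) - P m R * s * u * (s - 1) * (u + 1)) /
          (m ^ 2 * s * u * (s - 1) * (u + 1)) := by
      apply div_nonneg
      · exact mul_nonneg (by linarith) (by linarith)
      · positivity
    linarith
  · right
    unfold V
    rw [P_cons, P_cons, S_cons, S_cons, P_cons, P_cons, S_cons, S_cons, hs1]
    have e : (s : ℝ) / m * ((u : ℝ) / m * P m R) + y * ((m : ℝ) / s + ((m : ℝ) / u + S m R)) -
        (((s : ℝ) - 1) / m * ((u : ℝ) / m * P m R) +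
          y * ((m : ℝ) / (s - 1) + ((m : ℝ) / u + S m R))) =
        (P m R * s * u * (s - 1) - (m : ℝ) ^ 3 * y) / (m ^ 2 * s * (s - 1)) := by
      field_simp
      ring
    have h5 : 0 ≤ (P m R * s * u * (s - 1) - (m : ℝ) ^ 3 * y) / (m ^ 2 * s * (s - 1)) := by
      apply div_nonneg (by linarith)
      positivity
    linarith

/-- A list can be replaced by a list of the same length with entries in `{a, a+1}`. -/
lemma near_equal {m : ℕ} {y : ℝ} (hy : 0 ≤ y) : ∀ (n : ℕ) (T : List ℕ), Adm m T →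
    (T.map fun j => j ^ 2).sum = n → ∃ T' : List ℕ, Adm m T' ∧ T'.length = T.length ∧
      (∃ a : ℕ, ∀ j ∈ T', j = a ∨ j = a + 1) ∧ V m T' y ≤ V m T y := by
  intro n
  induction n using Nat.strong_induction_on with
  | _ n ih =>
    intro T hT hn
    by_cases h : ∃ s ∈ T, ∃ u ∈ T, u + 2 ≤ s
    · obtain ⟨s, hs, u, hu, hsu⟩ := h
      have hu' : u ∈ T.erase s := (List.mem_erase_of_ne (by omega)).2 hu
      set R := (T.erase s).erase u with hR
      have hp : T.Perm (s :: u :: R) :=
        (List.perm_cons_erase hs).trans ((List.perm_cons_erase hu').cons s)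
      have hAdm : Adm m (s :: u :: R) := Adm_perm hp hT
      obtain ⟨⟨hs0, hsm⟩, hA2⟩ := Adm_cons.1 hAdm
      obtain ⟨⟨hu0, hum⟩, hA3⟩ := Adm_cons.1 hA2
      have hlen : T.length = R.length + 2 := by rw [hp.length_eq]; simp
      have hsum : (T.map fun j => j ^ 2).sum = s ^ 2 + (u ^ 2 + (R.map fun j => j ^ 2).sum) := by
        rw [(hp.map _).sum_eq]; simp
      obtain ⟨s', rfl⟩ : ∃ s', s = s' + 1 := ⟨s - 1, by omega⟩
      rw [V_perm hp y]
      rcases exchange (m := m) (by omega) hu0 hsu R hA3 hy with h1 | h1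
      · simp only [Nat.add_sub_cancel] at h1
        have hadm' : Adm m (s' :: (u + 1) :: R) :=
          Adm_cons.2 ⟨⟨by omega, by omega⟩, Adm_cons.2 ⟨⟨by omega, by omega⟩, hA3⟩⟩
        obtain ⟨T', h2, h3, h4, h5⟩ := ih _ (by
          have : ((s' :: (u + 1) :: R).map fun j => j ^ 2).sum <
              (T.map fun j => j ^ 2).sum := by
            rw [hsum]
            simp only [List.map_cons, List.sum_cons]
            nlinarith
          rw [hn] at this
          exact this) (s' :: (u + 1) :: R) hadm' rfl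
        exact ⟨T', h2, by rw [h3, hlen]; simp, h4, h5.trans h1⟩
      · simp only [Nat.add_sub_cancel] at h1
        have hadm' : Adm m (s' :: u :: R) :=
          Adm_cons.2 ⟨⟨by omega, by omega⟩, Adm_cons.2 ⟨⟨by omega, by omega⟩, hA3⟩⟩
        obtain ⟨T', h2, h3, h4, h5⟩ := ih _ (by
          have : ((s' :: u :: R).map fun j => j ^ 2).sum <
              (T.map fun j => j ^ 2).sum := by
            rw [hsum]
            simp only [List.map_cons, List.sum_cons]
            nlinarith
          rw [hn] at this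
          exact this) (s' :: u :: R) hadm' rfl
        exact ⟨T', h2, by rw [h3, hlen]; simp, h4, h5.trans h1⟩
    · push Not at h
      refine ⟨T, hT, rfl, ?_, le_rfl⟩
      rcases T.eq_nil_or_concat with h0 | ⟨T1, b, h0⟩
      · subst h0
        exact ⟨0, by simp⟩
      · have hne : T.toFinset.Nonempty := ⟨b, by rw [h0]; simp⟩
        obtain ⟨a, ha, hmin⟩ := Finset.exists_min_image T.toFinset id hne
        rw [List.mem_toFinset] at ha
        refine ⟨a, fun j hj => ?_⟩
        have h1 := hmin j (List.mem_toFinset.2 hj)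
        simp only [id] at h1
        have h2 := h j hj a ha
        omega

/-- The arithmetic-geometric inequality for the lines. -/
lemma a_le_V {m : ℕ} (T : List ℕ) : Adm m T → ∀ y : ℝ, 0 ≤ y → a T.length y ≤ V m T y := by
  induction T with
  | nil => intro _ y _; rw [V_nil, List.length_nil, a_zero]
  | cons j T ih =>
    intro hT y hy
    obtain ⟨⟨hj0, hjm⟩, h2⟩ := Adm_cons.1 hT
    have hj : (0 : ℝ) < j := by exact_mod_cast hj0
    have hmpos : (0 : ℝ) < m := by exact_mod_cast (by omega : 0 < m)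
    have ht0 : (0 : ℝ) < (j : ℝ) / m := by positivity
    rw [V_cons hj0 (by omega), List.length_cons]
    have h4 : 0 ≤ y / ((j : ℝ) / m) := by positivity
    have h5 := key_left T.length ht0.le h4
    rw [mul_div_cancel₀ _ ht0.ne'] at h5
    have h6 := mul_le_mul_of_nonneg_left (ih h2 _ h4) ht0.le
    linarith

end Pool.Agent.H42.BX
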