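import Pool.Agent.H42.BX.Limit

/-!
# Exact values at the nodes
-/

set_option autoImplicit false

namespace Pool.Agent.H42.BX

open Finset Pool.Agent.H14RC

/-- When the minimum is attained by `T` at the point `(i/m) Π_T`, the line gives `F m`. -/
theorem F_eq_V {m : ℕ} (hm : 2 ≤ m) {i : ℕ} (hi : i ≤ m) {T : List ℕ} (hT : Adm m T)
    (hhalf : (i : ℝ) / m * P m T ≤ 1 / 2)
    (hmin : ∀ T' : List ℕ, Adm m T' → V m T ((i : ℝ) / m * P m T) ≤
      V m T' ((i : ℝ) / m * P m T)) :
    F m ((i : ℝ) / m * P m T) = V m T ((i : ℝ) / m * P m T) ∧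
      F m (1 - (i : ℝ) / m * P m T) = V m T ((i : ℝ) / m * P m T) := by
  have hP := P_pos hT
  have h0 : 0 ≤ (i : ℝ) / m * P m T := by positivity
  have h1 : (i : ℝ) / m * P m T ≤ 1 := by linarith
  have h2 : F m ((i : ℝ) / m * P m T) = V m T ((i : ℝ) / m * P m T) := by
    apply le_antisymm (F_le_V hm hi hT)
    refine le_trans ?_ (B_le_F hm h0 h1)
    rw [B_of_le hhalf]
    exact le_L hmin
  exact ⟨h2, by rw [F_symm hm h0 h1, h2]⟩

/-- At a positive point `y ≤ 1` a minimising list has product at least `y`. -/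
lemma min_le_P {m : ℕ} (T : List ℕ) : Adm m T → ∀ y : ℝ, 0 < y → y ≤ 1 →
    (∀ T' : List ℕ, Adm m T' → V m T y ≤ V m T' y) → y ≤ P m T := by
  induction T with
  | nil => intro _ y _ h1 _; rw [P_nil]; exact h1
  | cons j T ih =>
    intro hT y h0 h1 hmin
    obtain ⟨⟨hj0, hjm⟩, h2⟩ := Adm_cons.1 hT
    have hj : (0 : ℝ) < j := by exact_mod_cast hj0
    have hmpos : (0 : ℝ) < m := by exact_mod_cast (by omega : 0 < m)
    have ht0 : (0 : ℝ) < (j : ℝ) / m := by positivity
    have hy0 : 0 < y / ((j : ℝ) / m) := by positivity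
    have h3 := hmin [] (Adm_nil m)
    rw [V_nil, V_cons hj0 (by omega)] at h3
    have h4 : 0 < (j : ℝ) / m * V m T (y / ((j : ℝ) / m)) :=
      mul_pos ht0 (V_pos h2 hy0.le)
    have h5 : y / ((j : ℝ) / m) ≤ 1 := by linarith
    have h6 := ih h2 (y / ((j : ℝ) / m)) hy0 h5 (by
      intro T' hT'
      have h7 := hmin (j :: T') (Adm_cons.2 ⟨⟨hj0, hjm⟩, hT'⟩)
      rw [V_cons hj0 (by omega), V_cons hj0 (by omega)] at h7
      have h8 : (j : ℝ) / m * V m T (y / ((j : ℝ) / m)) ≤
          (j : ℝ) / m * V m T' (y / ((j : ℝ) / m)) := by linarith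
      exact le_of_mul_le_mul_left h8 ht0)
    rw [div_le_iff₀ ht0] at h6
    rw [P_cons]
    linarith

/-- The nodes: `F m = B m` at the points `(i/m) Π_T` where `T` is minimising. -/
theorem F_node {m : ℕ} (hm : 2 ≤ m) {T : List ℕ} {i : ℕ} {x : ℝ} (hT : Adm m T) (h0 : 0 ≤ x)
    (h1 : x ≤ 1) (hx : min x (1 - x) = (i : ℝ) / m * P m T)
    (hmin : ∀ T' : List ℕ, Adm m T' → V m T (min x (1 - x)) ≤ V m T' (min x (1 - x))) :
    F m x = V m T (min x (1 - x)) ∧ B m x = V m T (min x (1 - x)) := by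
  have hmpos : (0 : ℝ) < m := by exact_mod_cast (by omega : 0 < m)
  have h2 : (2 : ℝ) ≤ m := by exact_mod_cast hm
  have hP := P_pos hT
  have hy0 : 0 ≤ min x (1 - x) := le_min h0 (by linarith)
  have hyhalf : min x (1 - x) ≤ 1 / 2 := by
    rcases le_total x (1 - x) with h | h
    · rw [min_eq_left h]; linarith
    · rw [min_eq_right h]; linarith
  have hpos : 0 < min x (1 - x) := by
    rcases eq_or_lt_of_le hy0 with h | h
    · exfalso
      have h3 := hmin (1 :: T) (Adm_cons.2 ⟨⟨one_pos, by omega⟩, hT⟩)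
      rw [← h] at h3
      unfold V at h3
      rw [P_cons, zero_mul, zero_mul, add_zero, add_zero] at h3
      have h4 : ((1 : ℕ) : ℝ) / m ≤ 1 / 2 := by
        push_cast
        exact one_div_le_one_div_of_le (by norm_num) h2
      have h5 := mul_le_mul_of_nonneg_right h4 hP.le
      linarith
    · exact h
  have hle := min_le_P T hT _ hpos (by linarith) hmin
  have hi : i ≤ m := by
    rw [hx] at hle
    have h3 : (i : ℝ) / m ≤ 1 := by
      by_contra h
      push Not at h
      nlinarith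
    rw [div_le_one hmpos] at h3
    exact_mod_cast h3
  have hB : B m x = V m T (min x (1 - x)) :=
    le_antisymm (L_le hT hy0) (le_L hmin)
  refine ⟨?_, hB⟩
  have h3 := F_eq_V hm hi hT (by rw [← hx]; exact hyhalf) (by rw [← hx]; exact hmin)
  rw [← hx] at h3
  rcases le_total x (1 - x) with h | h
  · rw [min_eq_left h] at h3 ⊢
    exact h3.1
  · rw [min_eq_right h, sub_sub_cancel] at h3
    rw [min_eq_right h]
    exact h3.2

end Pool.Agent.H42.BX
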