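import Pool.Agent.H42.BX.NearEq

/-!
# Exact values at the quasi-cubes `(a/m)^p ((a+1)/m)^q`
-/

set_option autoImplicit false

namespace Pool.Agent.H42.BX

open Finset Pool.Agent.H14RC

/-- Bernoulli, two forms. -/
lemma bern_up {A : ℝ} (hA : 1 ≤ A) (d : ℕ) : A ^ d * (1 + d / A) ≤ (A + 1) ^ d := by
  have hA0 : 0 < A := by linarith
  have h := one_add_mul_le_pow (a := 1 / A) (by
    have : 0 ≤ 1 / A := by positivity
    linarith) d
  have e : (A + 1) ^ d = A ^ d * (1 + 1 / A) ^ d := by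
    rw [← mul_pow]; congr 1; field_simp
  rw [e]
  apply mul_le_mul_of_nonneg_left _ (by positivity)
  have e2 : (d : ℝ) / A = d * (1 / A) := by ring
  rw [e2]
  exact h

lemma bern_down {A : ℝ} (hA : 1 ≤ A) (d : ℕ) : (A + 1) ^ d * (1 - d / (A + 1)) ≤ A ^ d := by
  have hA0 : 0 < A + 1 := by linarith
  have h := one_add_mul_le_pow (a := -(1 / (A + 1))) (by
    have : 1 / (A + 1) ≤ 1 := by rw [div_le_one hA0]; linarith
    linarith) d
  have e : A ^ d = (A + 1) ^ d * (1 + -(1 / (A + 1))) ^ d := by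
    rw [← mul_pow]; congr 1; field_simp; ring
  rw [e]
  apply mul_le_mul_of_nonneg_left _ (by positivity)
  have e2 : 1 - (d : ℝ) / (A + 1) = 1 + d * -(1 / (A + 1)) := by ring
  rw [e2]
  exact h

lemma case_eq {A : ℝ} (hA : 1 ≤ A) {k r p q : ℕ} (h : k + r = p + q) :
    A ^ (p + 1) * (A + 1) ^ q * (((p : ℝ) + 1) / A + q / (A + 1)) ≤
      A ^ k * (A + 1) ^ r + A ^ (p + 1) * (A + 1) ^ q * ((k : ℝ) / A + r / (A + 1)) := by
  have hA0 : 0 < A := by linarith
  have hA1 : 0 < A + 1 := by linarith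
  rcases le_total q r with h1 | h1
  · obtain ⟨d, rfl⟩ := Nat.exists_eq_add_of_le h1
    have h2 : p = k + d := by omega
    subst h2
    have h3 := bern_up hA d
    have h4 : A ^ d * (1 + d / (A + 1)) ≤ A ^ d * (1 + d / A) := by
      apply mul_le_mul_of_nonneg_left _ (by positivity)
      have : (d : ℝ) / (A + 1) ≤ d / A := by
        apply div_le_div_of_nonneg_left (by positivity) hA0 (by linarith)
      linarith
    have e : A ^ k * (A + 1) ^ (q + d) +
        A ^ (k + d + 1) * (A + 1) ^ q * ((k : ℝ) / A + ((q + d : ℕ) : ℝ) / (A + 1)) -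
        A ^ (k + d + 1) * (A + 1) ^ q * ((((k + d : ℕ) : ℝ) + 1) / A + q / (A + 1)) =
        A ^ k * (A + 1) ^ q * ((A + 1) ^ d - A ^ d * (1 + d / (A + 1))) := by
      push_cast
      field_simp
      ring
    have h5 : 0 ≤ A ^ k * (A + 1) ^ q * ((A + 1) ^ d - A ^ d * (1 + d / (A + 1))) :=
      mul_nonneg (by positivity) (by linarith)
    linarith
  · obtain ⟨d, rfl⟩ := Nat.exists_eq_add_of_le h1
    have h2 : k = p + d := by omega
    subst h2
    have h3 := bern_down hA d
    have e : A ^ (p + d) * (A + 1) ^ r +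
        A ^ (p + 1) * (A + 1) ^ (r + d) * (((p + d : ℕ) : ℝ) / A + (r : ℝ) / (A + 1)) -
        A ^ (p + 1) * (A + 1) ^ (r + d) * (((p : ℝ) + 1) / A + ((r + d : ℕ) : ℝ) / (A + 1)) =
        A ^ p * (A + 1) ^ r * (A ^ d - (A + 1) ^ d * (1 - d / (A + 1))) := by
      push_cast
      field_simp
      ring
    have h5 : 0 ≤ A ^ p * (A + 1) ^ r * (A ^ d - (A + 1) ^ d * (1 - d / (A + 1))) :=
      mul_nonneg (by positivity) (by linarith)
    linarith

/-- Weierstrass for two powers, all sides large. -/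
lemma prod_up {A B : ℝ} (hA : 0 < A) (hB : A ≤ B) (k r : ℕ) :
    A ^ (k + r) * (A + (k * (B - A) + r * (B + 1 - A))) ≤ A * (B ^ k * (B + 1) ^ r) := by
  have h1 := one_add_mul_le_pow (a := (B - A) / A) (by
    have : 0 ≤ (B - A) / A := div_nonneg (by linarith) hA.le
    linarith) k
  have h2 := one_add_mul_le_pow (a := (B + 1 - A) / A) (by
    have : 0 ≤ (B + 1 - A) / A := div_nonneg (by linarith) hA.le
    linarith) r
  have e1 : 1 + (B - A) / A = B / A := by field_simp; ring
  have e2 : 1 + (B + 1 - A) / A = (B + 1) / A := by field_simp; ring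
  rw [e1] at h1
  rw [e2] at h2
  have h3 : 0 ≤ (k : ℝ) * ((B - A) / A) := by
    have : 0 ≤ (B - A) / A := div_nonneg (by linarith) hA.le
    positivity
  have h4 : 0 ≤ (r : ℝ) * ((B + 1 - A) / A) := by
    have : 0 ≤ (B + 1 - A) / A := div_nonneg (by linarith) hA.le
    positivity
  have h5 : 1 + (k : ℝ) * ((B - A) / A) + r * ((B + 1 - A) / A) ≤ (B / A) ^ k * ((B + 1) / A) ^ r := by
    calc 1 + (k : ℝ) * ((B - A) / A) + r * ((B + 1 - A) / A) ≤
          (1 + (k : ℝ) * ((B - A) / A)) * (1 + r * ((B + 1 - A) / A)) := by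
            nlinarith [mul_nonneg h3 h4]
      _ ≤ _ := mul_le_mul h1 h2 (by linarith) (by
            have : 0 < B := by linarith
            positivity)
  have h6 : A * (B ^ k * (B + 1) ^ r) =
      A ^ (k + r) * (A * ((B / A) ^ k * ((B + 1) / A) ^ r)) := by
    rw [div_pow, div_pow, pow_add]
    field_simp
  rw [h6]
  apply mul_le_mul_of_nonneg_left _ (by positivity)
  have h7 := mul_le_mul_of_nonneg_left h5 hA.le
  have e3 : A * (1 + (k : ℝ) * ((B - A) / A) + r * ((B + 1 - A) / A)) =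
      A + (k * (B - A) + r * (B + 1 - A)) := by
    field_simp
    ring
  rw [e3] at h7
  exact h7

/-- Weierstrass for two powers, all sides small. -/
lemma prod_down {A B : ℝ} (hA : 0 < A) (hB0 : 0 ≤ B) (hB : B + 1 ≤ A) (k r : ℕ) :
    A ^ (k + r) * (1 - (k * (A - B) + r * (A - B - 1)) / A) ≤ B ^ k * (B + 1) ^ r := by
  have h1 := one_add_mul_le_pow (a := -((A - B) / A)) (by
    have : (A - B) / A ≤ 1 := by rw [div_le_one hA]; linarith
    linarith) k
  have h2 := one_add_mul_le_pow (a := -((A - B - 1) / A)) (by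
    have : (A - B - 1) / A ≤ 1 := by rw [div_le_one hA]; linarith
    linarith) r
  have e1 : 1 + -((A - B) / A) = B / A := by field_simp; ring
  have e2 : 1 + -((A - B - 1) / A) = (B + 1) / A := by field_simp; ring
  rw [e1] at h1
  rw [e2] at h2
  have g1 : (B / A) ^ k ≤ 1 := pow_le_one₀ (by positivity) (by rw [div_le_one hA]; linarith)
  have g2 : ((B + 1) / A) ^ r ≤ 1 := pow_le_one₀ (by positivity) (by rw [div_le_one hA]; exact hB)
  have h5 : 1 - (k * (A - B) + r * (A - B - 1)) / A ≤ (B / A) ^ k * ((B + 1) / A) ^ r := by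
    have h6 : 0 ≤ (1 - (B / A) ^ k) * (1 - ((B + 1) / A) ^ r) :=
      mul_nonneg (by linarith) (by linarith)
    have e3 : 1 - (k * (A - B) + r * (A - B - 1)) / A =
        (1 + k * -((A - B) / A)) + (1 + r * -((A - B - 1) / A)) - 1 := by ring
    rw [e3]
    nlinarith
  have h6 : B ^ k * (B + 1) ^ r = A ^ (k + r) * ((B / A) ^ k * ((B + 1) / A) ^ r) := by
    rw [div_pow, div_pow, pow_add]
    field_simp
  rw [h6]
  exact mul_le_mul_of_nonneg_left h5 (by positivity)

/-- All sides larger than `A`. -/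
lemma case_up {A B : ℝ} (hA : 1 ≤ A) (hB : A + 1 ≤ B) {k r p q : ℕ} (h : k + r = p + q) :
    A ^ (p + 1) * (A + 1) ^ q * (((p : ℝ) + 1) / A + q / (A + 1)) ≤
      B ^ k * (B + 1) ^ r + A ^ (p + 1) * (A + 1) ^ q * ((k : ℝ) / B + r / (B + 1)) := by
  have hA0 : 0 < A := by linarith
  have hA1 : 0 < A + 1 := by linarith
  have hB0 : 0 < B := by linarith
  have hn : (k : ℝ) + r = p + q := by exact_mod_cast h
  -- chord
  have c1 : 1 / A + 1 / (A + 1) - B / (A * (A + 1)) ≤ 1 / B := by
    have e : 1 / B - (1 / A + 1 / (A + 1) - B / (A * (A + 1))) =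
        (B - A) * (B - A - 1) / (A * (A + 1) * B) := by field_simp; ring
    have : 0 ≤ (B - A) * (B - A - 1) / (A * (A + 1) * B) :=
      div_nonneg (mul_nonneg (by linarith) (by linarith)) (by positivity)
    linarith
  have c2 : 1 / A + 1 / (A + 1) - (B + 1) / (A * (A + 1)) ≤ 1 / (B + 1) := by
    have e : 1 / (B + 1) - (1 / A + 1 / (A + 1) - (B + 1) / (A * (A + 1))) =
        (B + 1 - A) * (B - A) / (A * (A + 1) * (B + 1)) := by field_simp; ring
    have : 0 ≤ (B + 1 - A) * (B - A) / (A * (A + 1) * (B + 1)) :=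
      div_nonneg (mul_nonneg (by linarith) (by linarith)) (by positivity)
    linarith
  have hk : (0 : ℝ) ≤ k := Nat.cast_nonneg k
  have hr : (0 : ℝ) ≤ r := Nat.cast_nonneg r
  have hp : (0 : ℝ) ≤ p := Nat.cast_nonneg p
  set K : ℝ := k * (B - (A + 1)) + r * (B + 1 - (A + 1)) with hK
  have hK0 : 0 ≤ K := by
    have h1 := mul_nonneg hk (show 0 ≤ B - (A + 1) by linarith)
    have h2 := mul_nonneg hr (show 0 ≤ B + 1 - (A + 1) by linarith)
    linarith
  have h1 := prod_up hA1 hB k r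
  rw [← hK] at h1
  -- the sum
  have h2 : ((p : ℝ) + q) * (1 / A + 1 / (A + 1)) - ((p + q) * (A + 1) + K) / (A * (A + 1)) ≤
      (k : ℝ) / B + r / (B + 1) := by
    have g1 := mul_le_mul_of_nonneg_left c1 hk
    have g2 := mul_le_mul_of_nonneg_left c2 hr
    have e : ((p : ℝ) + q) * (1 / A + 1 / (A + 1)) - ((p + q) * (A + 1) + K) / (A * (A + 1)) =
        k * (1 / A + 1 / (A + 1) - B / (A * (A + 1))) +
          r * (1 / A + 1 / (A + 1) - (B + 1) / (A * (A + 1))) := by
      rw [hK, ← hn]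
      field_simp
      ring
    rw [e]
    have e2 : (k : ℝ) / B + r / (B + 1) = k * (1 / B) + r * (1 / (B + 1)) := by ring
    rw [e2]
    linarith
  have hN : 0 < A ^ (p + 1) * (A + 1) ^ q := by positivity
  have h3 := mul_le_mul_of_nonneg_left h2 hN.le
  -- the product
  have h4 : A ^ p * (A + 1) ^ q * ((A + 1) + p + K) ≤ (A + 1) * (B ^ k * (B + 1) ^ r) := by
    refine le_trans ?_ h1
    rw [h, pow_add]
    have g1 := bern_up hA p
    have g2 : A ^ p * ((A + 1) + p + K) ≤ (A + 1) ^ p * ((A + 1) + K) := by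
      have g3 := mul_le_mul_of_nonneg_right g1 (show 0 ≤ (A + 1) + K by linarith)
      refine le_trans ?_ g3
      have g4 : (A + 1) + p + K ≤ (1 + p / A) * ((A + 1) + K) := by
        have e : (1 + p / A) * ((A + 1) + K) = (A + 1) + K + p * (((A + 1) + K) / A) := by
          field_simp
        have g5 : 1 ≤ ((A + 1) + K) / A := by rw [le_div_iff₀ hA0]; linarith
        have g6 := mul_le_mul_of_nonneg_left g5 hp
        rw [e]
        linarith
      have g7 := mul_le_mul_of_nonneg_left g4 (show 0 ≤ A ^ p by positivity)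
      linarith
    have g8 := mul_le_mul_of_nonneg_right g2 (show 0 ≤ (A + 1) ^ q by positivity)
    linarith
  have e3 : A ^ (p + 1) * (A + 1) ^ q * (((p : ℝ) + 1) / A + q / (A + 1)) -
      A ^ (p + 1) * (A + 1) ^ q * (((p : ℝ) + q) * (1 / A + 1 / (A + 1)) -
        ((p + q) * (A + 1) + K) / (A * (A + 1))) =
      A ^ p * (A + 1) ^ q * ((A + 1) + p + K) / (A + 1) := by
    field_simp
    ring
  have h5 : A ^ p * (A + 1) ^ q * ((A + 1) + p + K) / (A + 1) ≤ B ^ k * (B + 1) ^ r := by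
    rw [div_le_iff₀ hA1]; linarith
  linarith

/-- All sides at most `A`. -/
lemma case_down {A B : ℝ} (hB1 : 1 ≤ B) (hI : A = B + 1 ∨ B + 2 ≤ A) {k r p q : ℕ}
    (h : k + r = p + q) :
    A ^ (p + 1) * (A + 1) ^ q * (((p : ℝ) + 1) / A + q / (A + 1)) ≤
      B ^ k * (B + 1) ^ r + A ^ (p + 1) * (A + 1) ^ q * ((k : ℝ) / B + r / (B + 1)) := by
  have hB : B + 1 ≤ A := by rcases hI with h | h <;> linarith
  have hA0 : 0 < A := by linarith
  have hA1 : 0 < A + 1 := by linarith
  have hA2 : 0 < A - 1 := by linarith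
  have hB0 : 0 < B := by linarith
  have hn : (k : ℝ) + r = p + q := by exact_mod_cast h
  have c1 : 1 / (A - 1) + 1 / A - B / (A * (A - 1)) ≤ 1 / B := by
    have e : 1 / B - (1 / (A - 1) + 1 / A - B / (A * (A - 1))) =
        (A - B) * (A - B - 1) / (A * (A - 1) * B) := by field_simp; ring
    have : 0 ≤ (A - B) * (A - B - 1) / (A * (A - 1) * B) :=
      div_nonneg (mul_nonneg (by linarith) (by linarith)) (by positivity)
    linarith
  have c2 : 1 / (A - 1) + 1 / A - (B + 1) / (A * (A - 1)) ≤ 1 / (B + 1) := by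
    have e : 1 / (B + 1) - (1 / (A - 1) + 1 / A - (B + 1) / (A * (A - 1))) =
        (A - B - 1) * (A - B - 2) / (A * (A - 1) * (B + 1)) := by field_simp; ring
    have h0 : 0 ≤ (A - B - 1) * (A - B - 2) := by
      rcases hI with h | h
      · have : A - B - 1 = 0 := by linarith
        rw [this, zero_mul]
      · exact mul_nonneg (by linarith) (by linarith)
    have : 0 ≤ (A - B - 1) * (A - B - 2) / (A * (A - 1) * (B + 1)) :=
      div_nonneg h0 (by positivity)
    linarith
  have hk : (0 : ℝ) ≤ k := Nat.cast_nonneg k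
  have hr : (0 : ℝ) ≤ r := Nat.cast_nonneg r
  set K : ℝ := k * (A - B) + r * (A - B - 1) with hK
  have hK0 : 0 ≤ K := by
    have h1 := mul_nonneg hk (show 0 ≤ A - B by linarith)
    have h2 := mul_nonneg hr (show 0 ≤ A - B - 1 by linarith)
    linarith
  have h1 := prod_down hA0 hB0.le hB k r
  rw [← hK, h, pow_add] at h1
  have h2 : ((p : ℝ) + q) / A + K / (A * (A - 1)) ≤ (k : ℝ) / B + r / (B + 1) := by
    have g1 := mul_le_mul_of_nonneg_left c1 hk
    have g2 := mul_le_mul_of_nonneg_left c2 hr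
    have e : ((p : ℝ) + q) / A + K / (A * (A - 1)) =
        k * (1 / (A - 1) + 1 / A - B / (A * (A - 1))) +
          r * (1 / (A - 1) + 1 / A - (B + 1) / (A * (A - 1))) := by
      rw [hK, ← hn]
      field_simp
      ring
    rw [e]
    have e2 : (k : ℝ) / B + r / (B + 1) = k * (1 / B) + r * (1 / (B + 1)) := by ring
    rw [e2]
    linarith
  have hN : 0 < A ^ (p + 1) * (A + 1) ^ q := by positivity
  have h3 := mul_le_mul_of_nonneg_left h2 hN.le
  have e3 : A ^ (p + 1) * (A + 1) ^ q * (((p : ℝ) + 1) / A + q / (A + 1)) -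
      A ^ (p + 1) * (A + 1) ^ q * (((p : ℝ) + q) / A + K / (A * (A - 1))) =
      A ^ p * ((A + 1) ^ q * (1 - q / (A + 1)) - (A + 1) ^ q * (K / (A - 1))) := by
    field_simp
    ring
  have h4 := bern_down (show 1 ≤ A by linarith) q
  have h5 : A ^ q * (K / A) ≤ (A + 1) ^ q * (K / (A - 1)) := by
    apply mul_le_mul (pow_le_pow_left₀ hA0.le (by linarith) q)
    · exact div_le_div_of_nonneg_left hK0 hA2 (by linarith)
    · positivity
    · positivity
  have h6 : A ^ p * ((A + 1) ^ q * (1 - q / (A + 1)) - (A + 1) ^ q * (K / (A - 1))) ≤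
      A ^ p * (A ^ q * (1 - K / A)) := by
    apply mul_le_mul_of_nonneg_left _ (by positivity)
    have : A ^ q * (1 - K / A) = A ^ q - A ^ q * (K / A) := by ring
    rw [this]
    linarith
  have h7 : A ^ p * A ^ q * (1 - K / A) = A ^ p * (A ^ q * (1 - K / A)) := by ring
  linarith

/-- The inequality for all near-equal lists. -/
lemma num_ineq {a b : ℕ} (ha : 1 ≤ a) (hb : 1 ≤ b) {k r p q : ℕ} (h : k + r = p + q) :
    (a : ℝ) ^ (p + 1) * ((a : ℝ) + 1) ^ q * (((p : ℝ) + 1) / a + q / ((a : ℝ) + 1)) ≤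
      (b : ℝ) ^ k * ((b : ℝ) + 1) ^ r +
        (a : ℝ) ^ (p + 1) * ((a : ℝ) + 1) ^ q * ((k : ℝ) / b + r / ((b : ℝ) + 1)) := by
  have ha' : (1 : ℝ) ≤ a := by exact_mod_cast ha
  have hb' : (1 : ℝ) ≤ b := by exact_mod_cast hb
  rcases lt_trichotomy b a with h1 | h1 | h1
  · apply case_down hb' _ h
    rcases eq_or_lt_of_le (Nat.succ_le_of_lt h1) with h2 | h2
    · left
      have : a = b + 1 := h2.symm
      rw [this]; push_cast; ring
    · right
      have : b + 2 ≤ a := h2
      exact_mod_cast this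
  · subst h1
    exact case_eq hb' h
  · apply case_up ha' _ h
    exact_mod_cast h1

/-- The lists with entries in `{b, b+1}`. -/
lemma near_form {m b : ℕ} (hm : 0 < m) (hb : 1 ≤ b) (T : List ℕ) :
    (∀ j ∈ T, j = b ∨ j = b + 1) → ∃ k r : ℕ, k + r = T.length ∧
      P m T = (b : ℝ) ^ k * ((b : ℝ) + 1) ^ r / (m : ℝ) ^ T.length ∧
      S m T = m * ((k : ℝ) / b + r / ((b : ℝ) + 1)) := by
  have hm' : (0 : ℝ) < m := by exact_mod_cast hm
  have hb' : (0 : ℝ) < b := by exact_mod_cast hb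
  induction T with
  | nil => intro _; exact ⟨0, 0, by simp, by simp, by simp⟩
  | cons j T ih =>
    intro h
    obtain ⟨k, r, h1, h2, h3⟩ := ih fun i hi => h i (List.mem_cons_of_mem _ hi)
    rcases h j List.mem_cons_self with h4 | h4
    · refine ⟨k + 1, r, by rw [List.length_cons]; omega, ?_, ?_⟩
      · rw [P_cons, h2, h4, List.length_cons]
        field_simp
        ring
      · rw [S_cons, h3, h4]
        push_cast
        field_simp
        ring
    · refine ⟨k, r + 1, by rw [List.length_cons]; omega, ?_, ?_⟩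
      · rw [P_cons, h2, h4, List.length_cons]
        push_cast
        field_simp
        ring
      · rw [S_cons, h3, h4]
        push_cast
        field_simp
        ring

/-- The quasi-cube point. -/
noncomputable def qx (m a p q : ℕ) : ℝ := ((a : ℝ) / m) ^ p * (((a : ℝ) + 1) / m) ^ q

/-- The cost of the quasi-cube. -/
noncomputable def qc (m a p q : ℕ) : ℝ :=
  qx m a p q * (p * ((m : ℝ) / a) + q * ((m : ℝ) / ((a : ℝ) + 1)))

/-- Lists of length `p + q` are at least the cost of the quasi-cube with `p + 1 + q` sides. -/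
lemma V_ge_qc {m a p q : ℕ} (hm : 0 < m) (ha : 1 ≤ a) {T : List ℕ} (hT : Adm m T)
    (hlen : T.length = p + q) : qc m a (p + 1) q ≤ V m T (qx m a (p + 1) q) := by
  have hm' : (0 : ℝ) < m := by exact_mod_cast hm
  have ha' : (0 : ℝ) < a := by exact_mod_cast ha
  have hx : 0 ≤ qx m a (p + 1) q := by unfold qx; positivity
  obtain ⟨T', hT', hl, ⟨b, hb⟩, hV⟩ := near_equal hx _ T hT rfl
  refine le_trans ?_ hV
  -- we may take `b ≥ 1`
  obtain ⟨b', hb1, hb2⟩ : ∃ b' : ℕ, 1 ≤ b' ∧ ∀ j ∈ T', j = b' ∨ j = b' + 1 := by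
    rcases Nat.eq_zero_or_pos b with h0 | h0
    · refine ⟨1, le_rfl, fun j hj => ?_⟩
      have h1 := hb j hj
      have h2 := (hT' j hj).1
      omega
    · exact ⟨b, h0, hb⟩
  obtain ⟨k, r, h1, h2, h3⟩ := near_form hm hb1 T' hb2
  have h4 : k + r = p + q := by omega
  have h5 := num_ineq ha hb1 h4
  have hn : T'.length = p + q := by omega
  unfold V
  rw [h2, h3, hn]
  have e1 : qx m a (p + 1) q = (a : ℝ) ^ (p + 1) * ((a : ℝ) + 1) ^ q / ((m : ℝ) ^ (p + q) * m) := by
    unfold qx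
    rw [div_pow, div_pow, pow_succ (m : ℝ) p, pow_add]
    field_simp
    ring
  have e2 : qc m a (p + 1) q = (a : ℝ) ^ (p + 1) * ((a : ℝ) + 1) ^ q *
      (((p : ℝ) + 1) / a + q / ((a : ℝ) + 1)) / (m : ℝ) ^ (p + q) := by
    unfold qc
    rw [e1]
    push_cast
    field_simp
  rw [e2, e1]
  have e3 : (b' : ℝ) ^ k * ((b' : ℝ) + 1) ^ r / (m : ℝ) ^ (p + q) +
      (a : ℝ) ^ (p + 1) * ((a : ℝ) + 1) ^ q / ((m : ℝ) ^ (p + q) * m) *
        (m * ((k : ℝ) / b' + r / ((b' : ℝ) + 1))) =
      ((b' : ℝ) ^ k * ((b' : ℝ) + 1) ^ r +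
        (a : ℝ) ^ (p + 1) * ((a : ℝ) + 1) ^ q * ((k : ℝ) / b' + r / ((b' : ℝ) + 1))) /
        (m : ℝ) ^ (p + q) := by
    field_simp
  rw [e3]
  exact div_le_div_of_nonneg_right h5 (by positivity)

/-- **Exact values at the quasi-cubes.** -/
theorem F_quasi {m a p q : ℕ} (hm : 2 ≤ m) (ha : 1 ≤ a) (ham : a < m) (hq : q = 0 ∨ a + 1 < m)
    (hhalf : qx m a (p + 1) q ≤ 1 / 2)
    (hr : ∀ k : ℕ, k ≠ p + q → qc m a (p + 1) q ≤ Pool.Agent.H14RC.a k (qx m a (p + 1) q)) :
    F m (qx m a (p + 1) q) = qc m a (p + 1) q ∧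
      F m (1 - qx m a (p + 1) q) = qc m a (p + 1) q := by
  have hm' : (0 : ℝ) < m := by exact_mod_cast (by omega : 0 < m)
  have ha' : (0 : ℝ) < a := by exact_mod_cast ha
  have hx0 : 0 ≤ qx m a (p + 1) q := by unfold qx; positivity
  set T : List ℕ := List.replicate p a ++ List.replicate q (a + 1) with hTdef
  have hT : Adm m T := by
    intro j hj
    rw [hTdef, List.mem_append] at hj
    rcases hj with h | h
    · rw [List.eq_of_mem_replicate h]; omega
    · have h1 := List.eq_of_mem_replicate h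
      have h2 : q ≠ 0 := by
        intro h0
        rw [h0] at h
        simp at h
      omega
  have hP : P m T = ((a : ℝ) / m) ^ p * (((a : ℝ) + 1) / m) ^ q := by
    unfold P
    rw [hTdef, List.map_append, List.prod_append, List.map_replicate, List.map_replicate,
      List.prod_replicate, List.prod_replicate]
    push_cast
    rfl
  have hS : S m T = p * ((m : ℝ) / a) + q * ((m : ℝ) / ((a : ℝ) + 1)) := by
    unfold S
    rw [hTdef, List.map_append, List.sum_append, List.map_replicate, List.map_replicate,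
      List.sum_replicate, List.sum_replicate, nsmul_eq_mul, nsmul_eq_mul]
    push_cast
    rfl
  have ex : (a : ℝ) / m * P m T = qx m a (p + 1) q := by
    rw [hP]; unfold qx; ring
  have eV : V m T (qx m a (p + 1) q) = qc m a (p + 1) q := by
    unfold V qc
    rw [hS]
    have : P m T = qx m a (p + 1) q * ((m : ℝ) / a) := by
      rw [← ex]; field_simp
    rw [this]
    push_cast
    ring
  have hmin : ∀ T' : List ℕ, Adm m T' → V m T (qx m a (p + 1) q) ≤ V m T' (qx m a (p + 1) q) := by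
    intro T' hT'
    rw [eV]
    rcases eq_or_ne T'.length (p + q) with h | h
    · exact V_ge_qc (by omega) ha hT' h
    · exact (hr _ h).trans (a_le_V T' hT' _ hx0)
  have h1 := F_eq_V hm (i := a) ham.le hT (by rw [ex]; exact hhalf) (by rw [ex]; exact hmin)
  rw [ex, eV] at h1
  exact h1

end Pool.Agent.H42.BX
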