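import Pool.Agent.H42.BX.Box

/-!
# The two-point inequality for the box function
-/

set_option autoImplicit false

namespace Pool.Agent.H42.BX

open Finset Pool.Agent.H14RC

/-- One of the three lines is good enough. -/
lemma three_lines {a b l Pa Sa Pb Sb X : ℝ} (hPa : 0 ≤ Pa) (ha : 0 < a) (hab : a < b)
    (hl0 : 0 < l) (hl1 : l < 1) (h1 : X ≤ Pa + ((1 - l) * a + l * b) * Sa)
    (h2 : X ≤ Pb + ((1 - l) * a + l * b) * Sb)
    (h3 : X ≤ l * Pb + ((1 - l) * a + l * b) * (Sb + 1 / l)) :
    X ≤ (1 - l) * (Pa + a * Sa) + l * (Pb + b * Sb) + (b - a) := by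
  by_contra hcon
  push Not at hcon
  have hd : 0 < b - a := by linarith
  set r : ℝ := ((Pb + b * Sb) - (Pa + a * Sa)) / (b - a) with hr
  have hrd : r * (b - a) = (Pb + b * Sb) - (Pa + a * Sa) := by rw [hr]; field_simp
  set q : ℝ := 1 / l with hq
  have hql : l * q = 1 := by rw [hq]; field_simp
  -- first line
  have e1 : 0 < (b - a) * (l * Sa - l * r - 1) := by
    have : (b - a) * (l * Sa - l * r - 1) =
        l * (b - a) * Sa - l * (r * (b - a)) - (b - a) := by ring
    rw [this, hrd]
    nlinarith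
  have f1 : 0 < l * Sa - l * r - 1 := by
    by_contra h
    push Not at h
    nlinarith
  have e2 : 0 < (b - a) * ((1 - l) * r - 1 - (1 - l) * Sb) := by
    have : (b - a) * ((1 - l) * r - 1 - (1 - l) * Sb) =
        (1 - l) * (r * (b - a)) - (b - a) - (1 - l) * (b - a) * Sb := by ring
    rw [this, hrd]
    nlinarith
  have f2 : 0 < (1 - l) * r - 1 - (1 - l) * Sb := by
    by_contra h
    push Not at h
    nlinarith
  have e3 : 0 < (1 - l) * a * (Sb + q) + a - (1 - l) * (Pa + a * Sa) := by
    have e : l * Pb + ((1 - l) * a + l * b) * (Sb + q) =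
        l * (Pb + b * Sb) + b * (l * q) + (1 - l) * a * (Sb + q) := by ring
    rw [e, hql] at h3
    linarith
  have f3 : 0 < a * ((1 - l) * (Sb + q) + 1 - (1 - l) * Sa) := by
    have : 0 ≤ (1 - l) * Pa := mul_nonneg (by linarith) hPa
    nlinarith
  have f4 : 0 < (1 - l) * (Sb + q) + 1 - (1 - l) * Sa := by
    by_contra h
    push Not at h
    nlinarith
  have g1 : 0 < (1 - l) * q * (l * Sa - l * r - 1) :=
    mul_pos (mul_pos (by linarith) (by positivity)) f1
  have g2 : (1 - l) * q * (l * Sa - l * r - 1) = (1 - l) * (l * q) * Sa - (1 - l) * (l * q) * r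
      - (1 - l) * q := by ring
  rw [g2, hql] at g1
  linarith

/-- The two-point inequality for `L`. -/
lemma L_two {m : ℕ} (hm : 2 ≤ m) {a b : ℝ} (ha : 0 ≤ a) (hab : a < b) {j : ℕ} (hj0 : 0 < j)
    (hjm : j < m) :
    L m ((1 - (j : ℝ) / m) * a + (j : ℝ) / m * b) ≤
      (1 - (j : ℝ) / m) * L m a + (j : ℝ) / m * L m b + (b - a) := by
  have h1 : (0 : ℝ) < j := by exact_mod_cast hj0
  have h2 : (0 : ℝ) < m := by exact_mod_cast (by omega : 0 < m)
  have hl0 : (0 : ℝ) < (j : ℝ) / m := by positivity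
  have hl1 : (j : ℝ) / m < 1 := by rw [div_lt_one h2]; exact_mod_cast hjm
  have hb : 0 < b := by linarith
  rcases eq_or_lt_of_le ha with h | h
  · subst h
    have h3 := L_cons hj0 hjm hb.le
    simp only [L_zero hm, mul_zero, zero_add, sub_zero]
    exact h3
  · obtain ⟨Ta, hTa, ea⟩ := exists_min m h
    obtain ⟨Tb, hTb, eb⟩ := exists_min m hb
    have hx : 0 ≤ (1 - (j : ℝ) / m) * a + (j : ℝ) / m * b := by
      have : 0 ≤ 1 - (j : ℝ) / m := by linarith
      positivity
    have k1 := L_le hTa hx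
    have k2 := L_le hTb hx
    have k3 := L_le (T := j :: Tb) (Adm_cons.2 ⟨⟨hj0, hjm⟩, hTb⟩) hx
    rw [ea, eb]
    unfold V at k1 k2 k3 ⊢
    rw [P_cons, S_cons] at k3
    have e : (m : ℝ) / j + S m Tb = S m Tb + 1 / ((j : ℝ) / m) := by
      rw [one_div_div]; ring
    rw [e] at k3
    exact three_lines (P_pos hTa).le h hab hl0 hl1 k1 k2 k3

lemma B_symm (m : ℕ) (x : ℝ) : B m (1 - x) = B m x := by
  unfold B
  rw [sub_sub_cancel, min_comm]

lemma B_le_left {m : ℕ} {x : ℝ} (h0 : 0 ≤ x) (h1 : x ≤ 1) : B m x ≤ L m x :=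
  L_mono m (le_min h0 (by linarith)) (min_le_left _ _)

lemma B_le_right {m : ℕ} {x : ℝ} (h0 : 0 ≤ x) (h1 : x ≤ 1) : B m x ≤ L m (1 - x) :=
  L_mono m (le_min h0 (by linarith)) (min_le_right _ _)

lemma B_of_le {m : ℕ} {x : ℝ} (h : x ≤ 1 / 2) : B m x = L m x := by
  unfold B
  rw [min_eq_left (by linarith)]

lemma B_of_ge {m : ℕ} {x : ℝ} (h : 1 / 2 ≤ x) : B m x = L m (1 - x) := by
  unfold B
  rw [min_eq_right (by linarith)]

/-- The real inequality for the line with the single side `u`. -/
lemma mid_real {a be l q La u : ℝ} (ha : 0 ≤ a) (hbe : 4 * be ≤ q) (hq : q ≤ 1) (hq0 : 0 ≤ q)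
    (hl0 : 0 < l) (hl : l ≤ 1 / 4) (hu : 1 / 2 ≤ u) (hu2 : u ≤ 3 / 4) (hlu : l ≤ u * (1 - u))
    (hLa : a ≤ l * La) :
    u + ((1 - l) * a + l * (1 - be)) / u ≤ (1 - l) * La + l * q + (1 - be - a) := by
  have hu0 : 0 < u := by linarith
  rw [← le_sub_iff_add_le', div_le_iff₀ hu0]
  have c0 : 0 ≤ u * (1 - u) - l := by linarith
  have c1 : 0 ≤ (3 / 4 - u) * (u - l) := mul_nonneg (by linarith) (by linarith)
  have c2 : 0 ≤ (q - 4 * be) * (u - l) := mul_nonneg (by linarith) (by linarith)
  have c3 : 0 ≤ (1 - q) * (u * (1 - u) - l) := mul_nonneg (by linarith) c0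
  have c4 : 0 ≤ q * ((3 / 4 - u) * (u - l)) := mul_nonneg hq0 c1
  -- the a-part
  have hLa0 : 0 ≤ La := by
    by_contra h
    push Not at h
    nlinarith
  have d1 : (1 - l) * a + u * a ≤ u * ((1 - l) * La) := by
    have h1 : 4 * a ≤ La := by nlinarith
    nlinarith [mul_nonneg ha hu0.le, mul_nonneg (show 0 ≤ La - 4 * a by linarith) hu0.le,
      mul_nonneg (mul_nonneg (show 0 ≤ La by linarith) hu0.le) hl0.le,
      mul_nonneg (mul_nonneg (show 0 ≤ La - 4 * a by linarith) hu0.le)
        (show 0 ≤ 1 - l by linarith), mul_nonneg (mul_nonneg ha hu0.le)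
        (show 0 ≤ 1 / 4 - l by linarith), mul_nonneg ha (show 0 ≤ u - 1 / 2 by linarith)]
  nlinarith

/-- The case of one point near `0` and one near `1`, `l ≤ 1/2`. -/
lemma mid {m : ℕ} (hm : 2 ≤ m) {a be : ℝ} (ha : 0 ≤ a) (hbe : 0 ≤ be) (hab : a < 1 - be)
    {j : ℕ} (hj0 : 0 < j) (hj2 : 2 * j ≤ m) :
    B m ((1 - (j : ℝ) / m) * a + (j : ℝ) / m * (1 - be)) ≤
      (1 - (j : ℝ) / m) * L m a + (j : ℝ) / m * L m be + (1 - be - a) := by
  have hjm : j < m := by omega
  have h1 : (0 : ℝ) < j := by exact_mod_cast hj0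
  have h2 : (0 : ℝ) < m := by exact_mod_cast (by omega : 0 < m)
  set l : ℝ := (j : ℝ) / m with hl
  have hl0 : 0 < l := by positivity
  have hl2 : l ≤ 1 / 2 := by
    rw [hl, div_le_iff₀ h2]
    have : (2 : ℝ) * j ≤ m := by exact_mod_cast hj2
    linarith
  set x : ℝ := (1 - l) * a + l * (1 - be) with hx
  have hx0 : 0 ≤ x := by
    have h3 : 0 ≤ (1 - l) * a := mul_nonneg (by linarith) ha
    have h4 : 0 ≤ l * (1 - be) := mul_nonneg hl0.le (by linarith)
    linarith
  have hx1 : x ≤ 1 := by nlinarith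
  have hLa1 := L_le_one m ha
  have hLb1 := L_le_one m hbe
  have hLa0 := L_nonneg m ha
  have hLb0 := L_nonneg m hbe
  rcases le_or_gt 1 (L m be) with hc | hc
  · -- `L be = 1`
    have h3 : be ≤ 1 - be ∨ 1 - be < be := le_or_gt _ _
    rcases h3 with h3 | h3
    · have h4 := L_mono m hbe h3
      have h5 := L_le_one m (show 0 ≤ 1 - be by linarith)
      have h6 := L_two hm ha hab hj0 hjm
      rw [← hl, ← hx] at h6
      have h7 := B_le_left (m := m) hx0 hx1
      have h8 : l * L m (1 - be) ≤ l * L m be := mul_le_mul_of_nonneg_left (by linarith) hl0.le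
      linarith
    · -- then `be > 1/2`, trivial case
      have h6 := L_two hm hbe (show be < 1 - a by linarith) (j := m - j) (by omega) (by omega)
      have e : ((m - j : ℕ) : ℝ) / m = 1 - l := by
        rw [Nat.cast_sub hjm.le, hl]; field_simp
      rw [e] at h6
      have e2 : (1 - (1 - l)) * be + (1 - l) * (1 - a) = 1 - x := by rw [hx]; ring
      rw [e2] at h6
      have h7 := B_le_right (m := m) hx0 hx1
      have h8 : (1 - l) * L m (1 - a) ≤ (1 - l) * 1 :=
        mul_le_mul_of_nonneg_left (L_le_one m (by linarith)) (by linarith)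
      have h9 := B_le_left (m := m) hx0 hx1
      have h10 := L_lower m (y := 1 - be) (by linarith)
      have h11 := L_two hm ha hab hj0 hjm
      rw [← hl, ← hx] at h11
      have h12 : l * L m (1 - be) ≤ l * L m be := by
        apply mul_le_mul_of_nonneg_left _ hl0.le
        exact L_mono m (by linarith) h3.le
      linarith
  rcases le_or_gt 1 (L m a) with hc' | hc'
  · rcases le_or_gt a (1 - a) with h3 | h3
    · have h4 := L_mono m ha h3
      have h6 := L_two hm hbe (show be < 1 - a by linarith) (j := m - j) (by omega) (by omega)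
      have e : ((m - j : ℕ) : ℝ) / m = 1 - l := by
        rw [Nat.cast_sub hjm.le, hl]; field_simp
      rw [e] at h6
      have e2 : (1 - (1 - l)) * be + (1 - l) * (1 - a) = 1 - x := by rw [hx]; ring
      rw [e2] at h6
      have h7 := B_le_right (m := m) hx0 hx1
      have h8 : (1 - l) * L m (1 - a) ≤ (1 - l) * L m a :=
        mul_le_mul_of_nonneg_left ((L_le_one m (by linarith)).trans hc') (by linarith)
      linarith
    · have h6 := L_two hm hbe (show be < 1 - a by linarith) (j := m - j) (by omega) (by omega)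
      have e : ((m - j : ℕ) : ℝ) / m = 1 - l := by
        rw [Nat.cast_sub hjm.le, hl]; field_simp
      rw [e] at h6
      have e2 : (1 - (1 - l)) * be + (1 - l) * (1 - a) = 1 - x := by rw [hx]; ring
      rw [e2] at h6
      have h7 := B_le_right (m := m) hx0 hx1
      have h8 : (1 - l) * L m (1 - a) ≤ (1 - l) * L m a :=
        mul_le_mul_of_nonneg_left (L_mono m (by linarith) h3.le) (by linarith)
      linarith
  -- both are less than one
  have ha4 : 4 * a ≤ L m a := by
    have := L_lower m ha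
    rcases min_le_iff.1 this with h | h
    · linarith
    · exact h
  have hb4 : 4 * be ≤ L m be := by
    have := L_lower m hbe
    rcases min_le_iff.1 this with h | h
    · linarith
    · exact h
  rcases le_or_gt (a + be) ((1 - l) * L m a + l * L m be) with hi | hi
  · have h3 := B_le_left (m := m) hx0 hx1
    have h4 := L_le_one m hx0
    linarith
  have h5 : 2 * a ≤ (1 - l) * L m a := by nlinarith
  have h6 : l * L m be < be - a := by linarith
  have hl4 : l < 1 / 4 := by
    by_contra h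
    push Not at h
    nlinarith
  have hba : a < be := by nlinarith
  have hLab : L m a ≤ L m be := L_mono m ha hba.le
  have hw : 0 < 1 - be - a := by linarith
  -- the line of `a`, or a good bound for `L a`
  have key : L m x ≤ (1 - l) * L m a + l * L m be + (1 - be - a) ∨ a ≤ l * L m a := by
    rcases eq_or_lt_of_le ha with h | h
    · right
      rw [← h]
      exact mul_nonneg hl0.le (L_nonneg m le_rfl)
    · obtain ⟨T, hT, e⟩ := exists_min m h
      have h7 := L_le hT hx0
      have e1 : V m T x = L m a + l * (1 - be - a) * S m T := by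
        rw [e, hx]; unfold V; ring
      rw [e1] at h7
      rcases le_or_gt (l * S m T) 1 with h8 | h8
      · left
        have h9 : l * (1 - be - a) * S m T ≤ 1 - be - a := by
          have : l * (1 - be - a) * S m T = (1 - be - a) * (l * S m T) := by ring
          rw [this]
          nlinarith
        have h10 : 0 ≤ l * (L m be - L m a) := mul_nonneg hl0.le (by linarith)
        linarith
      · right
        have h9 := P_pos hT
        have e2 : L m a = P m T + a * S m T := e
        rw [e2]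
        nlinarith
  rcases key with h | hLa
  · exact (B_le_left hx0 hx1).trans h
  -- the single side
  have hj4 : 4 * j < m := by
    rw [hl, div_lt_iff₀ h2] at hl4
    have : (4 : ℝ) * j < m := by linarith
    exact_mod_cast this
  set k : ℕ := (m + 1) / 2 with hk
  have hk1 : m ≤ 2 * k := by omega
  have hk2 : 2 * k ≤ m + 1 := by omega
  have hk1' : (m : ℝ) ≤ 2 * k := by exact_mod_cast hk1
  have hk2' : (2 : ℝ) * k ≤ m + 1 := by exact_mod_cast hk2
  have hm5 : (5 : ℝ) ≤ m := by exact_mod_cast (by omega : 5 ≤ m)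
  have hj4' : (4 : ℝ) * j ≤ m - 1 := by
    have : (4 * j + 1 : ℕ) ≤ m := by omega
    have h9 : ((4 * j + 1 : ℕ) : ℝ) ≤ m := by exact_mod_cast this
    push_cast at h9
    linarith
  have hk0 : (0 : ℝ) < k := by linarith
  have hu1 : 1 / 2 ≤ (k : ℝ) / m := by rw [le_div_iff₀ h2]; linarith
  have hu2 : (k : ℝ) / m ≤ 3 / 4 := by rw [div_le_iff₀ h2]; linarith
  have hlu : l ≤ (k : ℝ) / m * (1 - (k : ℝ) / m) := by
    have e : (k : ℝ) / m * (1 - (k : ℝ) / m) = k * (m - k) / (m * m) := by
      field_simp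
    rw [e, hl, div_le_div_iff₀ h2 (by positivity)]
    have h9 : (j : ℝ) * m ≤ k * (m - k) := by
      have h10 : 0 ≤ (2 * (k : ℝ) - m) * (m + 1 - 2 * k) :=
        mul_nonneg (by linarith) (by linarith)
      nlinarith
    nlinarith [mul_le_mul_of_nonneg_right h9 h2.le]
  have hAdm : Adm m [k] := by
    intro i hi
    rw [List.mem_singleton] at hi
    subst hi
    omega
  have h11 := L_le hAdm hx0
  have e3 : V m [k] x = (k : ℝ) / m + x / ((k : ℝ) / m) := by
    rw [V_cons (by omega) (by omega), V_nil, mul_one]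
  rw [e3] at h11
  have h12 := mid_real (a := a) (be := be) (l := l) (q := L m be) (La := L m a)
    (u := (k : ℝ) / m) ha hb4 hLb1 hLb0 hl0 hl4.le hu1 hu2 hlu hLa
  rw [← hx] at h12
  exact (B_le_left hx0 hx1).trans (h11.trans h12)

/-- The two-point inequality for the box function. -/
theorem B_two {m : ℕ} (hm : 2 ≤ m) {a b : ℝ} (ha : 0 ≤ a) (hab : a ≤ b) (hb : b ≤ 1) {j : ℕ}
    (hj0 : 0 < j) (hjm : j < m) :
    B m ((1 - (j : ℝ) / m) * a + (j : ℝ) / m * b) ≤
      (1 - (j : ℝ) / m) * B m a + (j : ℝ) / m * B m b + (b - a) := by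
  have h1 : (0 : ℝ) < j := by exact_mod_cast hj0
  have h2 : (0 : ℝ) < m := by exact_mod_cast (by omega : 0 < m)
  have hl0 : (0 : ℝ) < (j : ℝ) / m := by positivity
  have hl1 : (j : ℝ) / m < 1 := by rw [div_lt_one h2]; exact_mod_cast hjm
  have e : ((m - j : ℕ) : ℝ) / m = 1 - (j : ℝ) / m := by
    rw [Nat.cast_sub hjm.le]; field_simp
  have hx0 : 0 ≤ (1 - (j : ℝ) / m) * a + (j : ℝ) / m * b := by
    have h3 : 0 ≤ (1 - (j : ℝ) / m) * a := mul_nonneg (by linarith) ha
    have h4 : 0 ≤ (j : ℝ) / m * b := mul_nonneg hl0.le (by linarith)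
    linarith
  have hx1 : (1 - (j : ℝ) / m) * a + (j : ℝ) / m * b ≤ 1 := by nlinarith
  rcases eq_or_lt_of_le hab with h | h
  · subst h
    have e1 : (1 - (j : ℝ) / m) * a + (j : ℝ) / m * a = a := by ring
    rw [e1]
    linarith
  rcases le_or_gt b (1 / 2) with hb2 | hb2
  · rw [B_of_le hb2, B_of_le (show a ≤ 1 / 2 by linarith)]
    exact (B_le_left hx0 hx1).trans (L_two hm ha h hj0 hjm)
  rcases le_or_gt (1 / 2) a with ha2 | ha2
  · rw [B_of_ge ha2, B_of_ge hb2.le]
    refine (B_le_right hx0 hx1).trans ?_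
    have h3 := L_two hm (a := 1 - b) (b := 1 - a) (by linarith) (by linarith) (j := m - j)
      (by omega) (by omega)
    rw [e] at h3
    have e2 : (1 - (1 - (j : ℝ) / m)) * (1 - b) + (1 - (j : ℝ) / m) * (1 - a) =
        1 - ((1 - (j : ℝ) / m) * a + (j : ℝ) / m * b) := by ring
    rw [e2] at h3
    linarith
  · rw [B_of_le ha2.le, B_of_ge hb2.le]
    rcases le_or_gt (2 * j) m with hj2 | hj2
    · have h3 := mid hm ha (be := 1 - b) (by linarith) (by linarith) hj0 hj2
      rw [sub_sub_cancel] at h3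
      exact h3
    · have h3 := mid hm (a := 1 - b) (be := a) (by linarith) ha (by linarith) (j := m - j)
        (by omega) (by omega)
      rw [e] at h3
      have e2 : (1 - (1 - (j : ℝ) / m)) * (1 - b) + (1 - (j : ℝ) / m) * (1 - a) =
        1 - ((1 - (j : ℝ) / m) * a + (j : ℝ) / m * b) := by ring
      rw [e2, B_symm] at h3
      linarith

end Pool.Agent.H42.BX
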