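import Pool.Agent.H42.BX.Multi

/-!
# Upper bounds for `F m` by the lines, exact values, comparison with `G`
-/

set_option autoImplicit false

namespace Pool.Agent.H42.BX

open Finset Pool.Agent.H14RC

/-- The constant `c = m/(m-1)`. -/
noncomputable def cc (m : ℕ) : ℝ := (m : ℝ) / ((m : ℝ) - 1)

lemma cc_one_lt {m : ℕ} (hm : 2 ≤ m) : 1 < cc m := by
  have h2 : (2 : ℝ) ≤ m := by exact_mod_cast hm
  unfold cc
  rw [lt_div_iff₀ (by linarith)]
  linarith

lemma cc_eq {m : ℕ} (hm : 2 ≤ m) : 1 + cc m / m = cc m := by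
  have h2 : (2 : ℝ) ≤ m := by exact_mod_cast hm
  unfold cc
  have h3 : (m : ℝ) - 1 ≠ 0 := by
    have : (0 : ℝ) < (m : ℝ) - 1 := by linarith
    exact this.ne'
  have h4 : (m : ℝ) ≠ 0 := by positivity
  field_simp
  ring

lemma exists_rem {m : ℕ} (hm : 2 ≤ m) {x : ℝ} (h0 : 0 ≤ x) (h1 : x ≤ 1) :
    ∃ (q : ℕ) (z : ℝ), q + 1 ≤ m ∧ 0 ≤ z ∧ z ≤ 1 ∧ x = (z + q) / m := by
  have hmpos : (0 : ℝ) < m := by exact_mod_cast (by omega : 0 < m)
  rcases eq_or_lt_of_le h1 with h | h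
  · refine ⟨m - 1, 1, by omega, by norm_num, le_rfl, ?_⟩
    rw [h, Nat.cast_sub (by omega)]
    field_simp
    push_cast
    ring
  · have hmx : 0 ≤ (m : ℝ) * x := by positivity
    have h3 : (⌊(m : ℝ) * x⌋₊ : ℝ) ≤ m * x := Nat.floor_le hmx
    have h4 : (m : ℝ) * x < ⌊(m : ℝ) * x⌋₊ + 1 := Nat.lt_floor_add_one _
    have h5 : ⌊(m : ℝ) * x⌋₊ < m := by
      have : (⌊(m : ℝ) * x⌋₊ : ℝ) < m := by nlinarith
      exact_mod_cast this
    refine ⟨⌊(m : ℝ) * x⌋₊, m * x - ⌊(m : ℝ) * x⌋₊, h5, by linarith, by linarith, ?_⟩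
    field_simp
    ring

lemma class_le_aux {m : ℕ} (hm : 2 ≤ m) {f : ℝ → ℝ} (hf : InClass m f) (n : ℕ) :
    ∀ x : ℝ, 0 ≤ x → x ≤ 1 → f x ≤ cc m + 1 / (m : ℝ) ^ n := by
  have hmpos : (0 : ℝ) < m := by exact_mod_cast (by omega : 0 < m)
  have h2 : (2 : ℝ) ≤ m := by exact_mod_cast hm
  induction n with
  | zero =>
    intro x h0 h1
    have h3 := inClass_le hm hf h0 h1
    have h4 := cc_one_lt hm
    have h5 : 2 / (m : ℝ) ≤ 1 := by rw [div_le_one hmpos]; exact h2
    simp only [pow_zero, div_one]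
    linarith
  | succ n ih =>
    intro x h0 h1
    obtain ⟨q, z, hq, hz0, hz1, rfl⟩ := exists_rem hm h0 h1
    have h3 := one_remainder hf hq hz0 hz1
    have h4 := ih z hz0 hz1
    have h5 : f z / m ≤ (cc m + 1 / (m : ℝ) ^ n) / m := by gcongr
    have h6 := cc_eq hm
    have h7 : (cc m + 1 / (m : ℝ) ^ n) / m = cc m / m + 1 / (m : ℝ) ^ (n + 1) := by
      rw [add_div, div_div, pow_succ]
    linarith

/-- Every member of the class is at most `m/(m-1)`. -/
lemma class_le {m : ℕ} (hm : 2 ≤ m) {f : ℝ → ℝ} (hf : InClass m f) {x : ℝ} (h0 : 0 ≤ x)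
    (h1 : x ≤ 1) : f x ≤ cc m := by
  have h2 : (2 : ℝ) ≤ m := by exact_mod_cast hm
  apply le_of_forall_pos_le_add
  intro e he
  obtain ⟨n, hn⟩ := exists_pow_lt_of_lt_one he (show (1 : ℝ) / 2 < 1 by norm_num)
  have h3 := class_le_aux hm hf n x h0 h1
  have h4 : 1 / (m : ℝ) ^ n ≤ (1 / 2) ^ n := by
    rw [one_div_pow]
    apply one_div_le_one_div_of_le (by positivity)
    exact pow_le_pow_left₀ (by norm_num) h2 n
  linarith

lemma cc_le_line {m : ℕ} (hm : 2 ≤ m) {T : List ℕ} (hT : Adm m T) :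
    cc m ≤ cc m * P m T + S m T := by
  have h1 := cc_one_lt hm
  cases T with
  | nil => simp
  | cons j T =>
    obtain ⟨⟨h0, h1'⟩, h2⟩ := Adm_cons.1 hT
    have h3 : (0 : ℝ) < j := by exact_mod_cast h0
    have h4 : (j : ℝ) + 1 ≤ m := by exact_mod_cast h1'
    have h5 : cc m ≤ (m : ℝ) / j := by
      unfold cc
      apply div_le_div_of_nonneg_left (by linarith) h3 (by linarith)
    have h6 := S_nonneg h2
    have h7 : 0 ≤ cc m * P m (j :: T) := mul_nonneg (by linarith) (P_pos hT).le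
    rw [S_cons]
    linarith

/-- Every member of the class is below the lines with `Π` multiplied by `m/(m-1)`. -/
lemma class_le_line {m : ℕ} (hm : 2 ≤ m) {f : ℝ → ℝ} (hf : InClass m f) (T : List ℕ) :
    Adm m T → ∀ y : ℝ, 0 ≤ y → y ≤ 1 → f y ≤ cc m * P m T + y * S m T := by
  have hc := cc_one_lt hm
  have hmpos : (0 : ℝ) < m := by exact_mod_cast (by omega : 0 < m)
  induction T with
  | nil =>
    intro _ y h0 h1
    have := class_le hm hf h0 h1
    simpa using this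
  | cons j T ih =>
    intro hT y h0 h1
    obtain ⟨⟨hj0, hjm⟩, h2⟩ := Adm_cons.1 hT
    have hj : (0 : ℝ) < j := by exact_mod_cast hj0
    have ht0 : (0 : ℝ) < (j : ℝ) / m := by positivity
    rw [P_cons, S_cons]
    have e0 : (m : ℝ) / j = 1 / ((j : ℝ) / m) := by rw [one_div_div]
    rw [e0]
    rcases le_or_gt y ((j : ℝ) / m) with h | h
    · have h3 : y / ((j : ℝ) / m) ≤ 1 := by rw [div_le_one ht0]; exact h
      have h4 : 0 ≤ y / ((j : ℝ) / m) := by positivity
      have h5 := two_block hf hjm.le (by omega) h4 h3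
      rw [mul_div_cancel₀ _ ht0.ne'] at h5
      have h6 := mul_le_mul_of_nonneg_left (ih h2 _ h4 h3) ht0.le
      have e : (j : ℝ) / m * (cc m * P m T + y / ((j : ℝ) / m) * S m T) + y / ((j : ℝ) / m) =
          cc m * ((j : ℝ) / m * P m T) + y * (1 / ((j : ℝ) / m) + S m T) := by
        field_simp
        ring
      linarith
    · have h3 := class_le hm hf h0 h1
      have h4 : 1 ≤ y * (1 / ((j : ℝ) / m)) := by
        rw [mul_one_div, le_div_iff₀ ht0]; linarith
      have h5 : (j : ℝ) / m * S m T ≤ y * S m T :=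
        mul_le_mul_of_nonneg_right h.le (S_nonneg h2)
      have h6 := mul_le_mul_of_nonneg_left (cc_le_line hm h2) ht0.le
      have h7 : 1 / (m : ℝ) ≤ (j : ℝ) / m := by
        apply div_le_div_of_nonneg_right _ hmpos.le
        exact_mod_cast hj0
      have h8 : 1 / (m : ℝ) * cc m ≤ (j : ℝ) / m * cc m :=
        mul_le_mul_of_nonneg_right h7 (by linarith)
      have h9 := cc_eq hm
      have h10 : cc m / m = 1 / (m : ℝ) * cc m := by ring
      nlinarith

/-- The upper bound. -/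
theorem F_le_cB {m : ℕ} (hm : 2 ≤ m) {x : ℝ} (h0 : 0 ≤ x) (h1 : x ≤ 1) :
    F m x ≤ cc m * L m (min x (1 - x) / cc m) := by
  have hc := cc_one_lt hm
  have hc0 : 0 < cc m := by linarith
  have key : ∀ y : ℝ, 0 ≤ y → y ≤ 1 → F m y ≤ cc m * L m (y / cc m) := by
    intro y hy0 hy1
    have h2 : F m y / cc m ≤ L m (y / cc m) := by
      apply le_L
      intro T hT
      rw [div_le_iff₀ hc0]
      have h3 := class_le_line hm (F_inClass hm) T hT y hy0 hy1
      have e : V m T (y / cc m) * cc m = cc m * P m T + y * S m T := by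
        unfold V; field_simp
      rw [e]
      exact h3
    rw [div_le_iff₀ hc0] at h2
    linarith
  rcases le_total x (1 - x) with h | h
  · rw [min_eq_left h]; exact key x h0 h1
  · rw [min_eq_right h, ← F_symm hm h0 h1]
    exact key (1 - x) (by linarith) (by linarith)

lemma cB_le {m : ℕ} (hm : 2 ≤ m) {x : ℝ} (h0 : 0 ≤ x) (h1 : x ≤ 1) :
    cc m * L m (min x (1 - x) / cc m) ≤ cc m * B m x := by
  have hc := cc_one_lt hm
  have hc0 : 0 < cc m := by linarith
  have hx : 0 ≤ min x (1 - x) := le_min h0 (by linarith)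
  apply mul_le_mul_of_nonneg_left _ hc0.le
  unfold B
  apply L_mono m (by positivity)
  rw [div_le_iff₀ hc0]
  nlinarith

/-- The lower bound. -/
theorem B_le_F {m : ℕ} (hm : 2 ≤ m) {x : ℝ} (h0 : 0 ≤ x) (h1 : x ≤ 1) : B m x ≤ F m x :=
  le_F hm (B_inClass hm) h0 h1

lemma P_le_one {m : ℕ} {T : List ℕ} (hT : Adm m T) : P m T ≤ 1 := by
  induction T with
  | nil => simp
  | cons j T ih =>
    obtain ⟨⟨h0, h1⟩, h2⟩ := Adm_cons.1 hT
    rw [P_cons]
    have h3 : (0 : ℝ) < j := by exact_mod_cast h0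
    have h4 : (0 : ℝ) < m := by exact_mod_cast (by omega : 0 < m)
    have h5 : (j : ℝ) / m ≤ 1 := by rw [div_le_one h4]; exact_mod_cast h1.le
    exact mul_le_one₀ h5 (P_pos h2).le (ih h2)

/-- Members of the class are below the lines at the points `(i/m) Π`. -/
lemma class_le_V {m : ℕ} (hm : 2 ≤ m) {f : ℝ → ℝ} (hf : InClass m f) {i : ℕ} (hi : i ≤ m)
    (T : List ℕ) : Adm m T → f ((i : ℝ) / m * P m T) ≤ V m T ((i : ℝ) / m * P m T) := by
  have hmpos : (0 : ℝ) < m := by exact_mod_cast (by omega : 0 < m)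
  have hi1 : (i : ℝ) / m ≤ 1 := by rw [div_le_one hmpos]; exact_mod_cast hi
  induction T with
  | nil =>
    intro _
    rw [V_nil, P_nil, mul_one]
    rcases eq_or_lt_of_le hi with h | h
    · rw [h, div_self hmpos.ne']
      exact hf.2.1.trans zero_le_one
    · have h3 := one_remainder hf (q := i) h (z := 0) le_rfl zero_le_one
      rw [zero_add] at h3
      have h4 : f 0 / m ≤ 0 := div_nonpos_of_nonpos_of_nonneg hf.1 hmpos.le
      linarith
  | cons j T ih =>
    intro hT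
    obtain ⟨⟨hj0, hjm⟩, h2⟩ := Adm_cons.1 hT
    have hj : (0 : ℝ) < j := by exact_mod_cast hj0
    have ht0 : (0 : ℝ) < (j : ℝ) / m := by positivity
    have hP := P_pos h2
    have hP1 := P_le_one h2
    have h3 : 0 ≤ (i : ℝ) / m * P m T := by positivity
    have h4 : (i : ℝ) / m * P m T ≤ 1 := mul_le_one₀ hi1 hP.le hP1
    have h5 := two_block hf hjm.le (by omega) h3 h4
    have e : (i : ℝ) / m * P m (j :: T) = (j : ℝ) / m * ((i : ℝ) / m * P m T) := by
      rw [P_cons]; ring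
    rw [e, V_cons hj0 (by omega), mul_div_cancel_left₀ _ ht0.ne']
    have h6 := mul_le_mul_of_nonneg_left (ih h2) ht0.le
    linarith

theorem F_le_V {m : ℕ} (hm : 2 ≤ m) {i : ℕ} (hi : i ≤ m) {T : List ℕ} (hT : Adm m T) :
    F m ((i : ℝ) / m * P m T) ≤ V m T ((i : ℝ) / m * P m T) :=
  F_le (by omega) fun _ hf => class_le_V hm hf hi T hT

/-- `G` is below the lines. -/
lemma G_le_V {m : ℕ} (T : List ℕ) : Adm m T → ∀ y : ℝ, 0 ≤ y → y ≤ 1 → G y ≤ V m T y := by
  induction T with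
  | nil => intro _ y h0 h1; rw [V_nil]; exact G_le_one h0 h1
  | cons j T ih =>
    intro hT y h0 h1
    obtain ⟨⟨hj0, hjm⟩, h2⟩ := Adm_cons.1 hT
    have hj : (0 : ℝ) < j := by exact_mod_cast hj0
    have hmpos : (0 : ℝ) < m := by exact_mod_cast (by omega : 0 < m)
    have ht0 : (0 : ℝ) < (j : ℝ) / m := by positivity
    have ht1 : (j : ℝ) / m ≤ 1 := by rw [div_le_one hmpos]; exact_mod_cast hjm.le
    rw [V_cons hj0 (by omega)]
    have h4 : 0 ≤ y / ((j : ℝ) / m) := by positivity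
    rcases le_or_gt y ((j : ℝ) / m) with h | h
    · have h3 : y / ((j : ℝ) / m) ≤ 1 := by rw [div_le_one ht0]; exact h
      have h5 := key ht0.le ht1 h4 h3
      rw [mul_div_cancel₀ _ ht0.ne'] at h5
      have h6 := mul_le_mul_of_nonneg_left (ih h2 _ h4 h3) ht0.le
      linarith
    · have h3 : 1 ≤ y / ((j : ℝ) / m) := by rw [le_div_iff₀ ht0]; linarith
      have h5 := G_le_one h0 h1
      have h6 : 0 ≤ (j : ℝ) / m * V m T (y / ((j : ℝ) / m)) :=
        mul_nonneg ht0.le (V_pos h2 h4).le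
      linarith

theorem G_le_B {m : ℕ} {x : ℝ} (h0 : 0 ≤ x) (h1 : x ≤ 1) : G x ≤ B m x := by
  unfold B
  have hx : 0 ≤ min x (1 - x) := le_min h0 (by linarith)
  apply le_L
  intro T hT
  rcases le_total x (1 - x) with h | h
  · rw [min_eq_left h]; exact G_le_V T hT x h0 h1
  · rw [min_eq_right h, ← G_symm]
    exact G_le_V T hT _ (by linarith) (by linarith)

end Pool.Agent.H42.BX
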